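import Pool.Agent.P.MP_e3a3b0_nt.Rot

/-! The sums of `1 / log l` up to triangular numbers. -/

namespace Pool.Agent.P.MP_e3a3b0_nt

open Finset Real

/-- triangular numbers -/
def tri (k : ℕ) : ℕ := k * (k + 1) / 2

/-- the sum of `1 / log l` -/
noncomputable def G (y : ℕ) : ℝ := ∑ l ∈ Icc 2 y, 1 / log l

theorem tri_cast (k : ℕ) : (tri k : ℝ) = k * (k + 1) / 2 := by
  rw [tri, Nat.cast_div (even_iff_two_dvd.1 (Nat.even_mul_succ_self k)) two_ne_zero]
  push_cast; rfl

theorem tri_succ (k : ℕ) : tri (k + 1) = tri k + (k + 1) := by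
  have : (tri (k + 1) : ℝ) = tri k + (k + 1) := by simp only [tri_cast]; push_cast; ring
  exact_mod_cast this

theorem tri_mono : Monotone tri := monotone_nat_of_le_succ fun k => by rw [tri_succ]; omega

theorem le_tri (k : ℕ) : k ≤ tri k := by
  cases k with
  | zero => exact Nat.zero_le _
  | succ k => rw [tri_succ]; omega

theorem tri_le (k : ℕ) : (tri k : ℝ) ≤ (k : ℝ) ^ 2 := by
  rw [tri_cast]
  cases k with
  | zero => simp
  | succ k => push_cast; nlinarith [(Nat.cast_nonneg k : (0 : ℝ) ≤ k)]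

theorem G_sub {x y : ℕ} (hx : 1 ≤ x) (h : x ≤ y) : G y - G x = ∑ l ∈ Ioc x y, 1 / log l := by
  have e : ∀ z, G z = ∑ l ∈ Ioc 1 z, 1 / log l := fun z => rfl
  rw [e, e, ← sum_Ioc_consecutive _ hx h, add_sub_cancel_left]

theorem G_mono : Monotone G := fun _ _ h =>
  sum_le_sum_of_subset_of_nonneg (Icc_subset_Icc_right h) fun l _ _ =>
    one_div_nonneg.2 (log_natCast_nonneg l)

theorem G_low {x y : ℕ} (hx : 1 ≤ x) (h : x ≤ y) : ((y : ℝ) - x) / log y ≤ G y - G x := by
  rw [G_sub hx h]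
  refine le_trans (le_of_eq ?_) (card_nsmul_le_sum _ _ (1 / log y) fun l hl => ?_)
  · rw [Nat.card_Ioc, nsmul_eq_mul, Nat.cast_sub h, mul_one_div]
  · obtain ⟨a, b⟩ := mem_Ioc.1 hl
    have : (1 : ℝ) < l := by exact_mod_cast lt_of_le_of_lt hx a
    exact one_div_le_one_div_of_le (log_pos this) (log_le_log (by linarith) (Nat.cast_le.2 b))

theorem G_up {x y : ℕ} (hx : 2 ≤ x) (h : x ≤ y) : G y - G x ≤ ((y : ℝ) - x) / log x := by
  rw [G_sub (by omega) h]
  refine le_trans (sum_le_card_nsmul _ _ (1 / log x) fun l hl => ?_) (le_of_eq ?_)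
  · have : (1 : ℝ) < x := by exact_mod_cast hx
    exact one_div_le_one_div_of_le (log_pos this)
      (log_le_log (by linarith) (Nat.cast_le.2 (mem_Ioc.1 hl).1.le))
  · rw [Nat.card_Ioc, nsmul_eq_mul, Nat.cast_sub h, mul_one_div]

theorem G_one : G 1 = 0 := by simp [G]

theorem G_le (y : ℕ) : G y ≤ 2 * y := by
  refine le_trans (sum_le_card_nsmul _ _ 2 fun l hl => ?_) ?_
  · have a : (2 : ℝ) ≤ l := by exact_mod_cast (mem_Icc.1 hl).1
    have b := log_le_log two_pos a
    rw [div_le_iff₀ (by linarith [log_two_gt_d9])]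
    linarith [log_two_gt_d9]
  · rw [Nat.card_Icc, nsmul_eq_mul, mul_comm]
    exact mul_le_mul_of_nonneg_left (Nat.cast_le.2 (by omega)) zero_le_two

/-- the logarithm of a triangular number -/
noncomputable def lg (k : ℕ) : ℝ := log (tri k)

theorem lg_mono {k m : ℕ} (hk : 1 ≤ k) (h : k ≤ m) : lg k ≤ lg m :=
  log_le_log (Nat.cast_pos.2 (hk.trans (le_tri k))) (Nat.cast_le.2 (tri_mono h))

theorem lg_le {k n : ℕ} (hk : 1 ≤ k) (h : k ≤ n) : lg k ≤ 2 * log n := by
  refine (lg_mono hk h).trans ?_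
  have := log_le_log (Nat.cast_pos.2 ((hk.trans h).trans (le_tri n))) (tri_le n)
  rwa [log_pow] at this

theorem le_lg {k : ℕ} (hk : 1 ≤ k) : 2 * log k - 1 ≤ lg k := by
  have a : (1 : ℝ) ≤ k := by exact_mod_cast hk
  have b : (k : ℝ) ^ 2 / 2 ≤ tri k := by rw [tri_cast]; nlinarith
  have := log_le_log (by positivity) b
  rw [log_div (by positivity) two_ne_zero, log_pow] at this
  push_cast at this
  linarith [log_two_lt_d9, show lg k = log (tri k) from rfl]

theorem four_le_lg {k : ℕ} (hk : 81 ≤ k) : 4 ≤ lg k := by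
  have a : (81 : ℝ) ≤ tri k := by exact_mod_cast hk.trans (le_tri k)
  rw [lg, le_log_iff_exp_le (by linarith)]
  refine le_trans ?_ a
  have : exp 4 = exp 1 ^ 4 := by rw [← exp_nat_mul]; norm_num
  rw [this]
  refine le_trans (pow_le_pow_left₀ (exp_pos 1).le (exp_one_lt_d9.le.trans
    (show (2.7182818286 : ℝ) ≤ 3 by norm_num)) 4) (by norm_num)

theorem sig_step {k : ℕ} (hk : 81 ≤ k) :
    1 / (2 * lg (k + 1)) ≤ (k + 1 : ℕ) / lg (k + 1) - k / lg k ∧
      (k + 1 : ℕ) / lg (k + 1) - k / lg k ≤ 1 := by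
  have a1 := four_le_lg hk
  have a2 := lg_mono (k := k) (m := k + 1) (by omega) (by omega)
  have a3 : (81 : ℝ) ≤ k := by exact_mod_cast hk
  have a4 : k * (lg (k + 1) - lg k) ≤ 2 := by
    have b0 : (0 : ℝ) < tri k := Nat.cast_pos.2 (lt_of_lt_of_le (by omega) (le_tri k))
    have b1 : (0 : ℝ) < tri (k + 1) := Nat.cast_pos.2 (lt_of_lt_of_le (by omega) (le_tri _))
    rw [lg, lg, ← log_div b1.ne' b0.ne', ← le_div_iff₀' (by linarith)]
    refine (log_le_sub_one_of_pos (div_pos b1 b0)).trans (le_of_eq ?_)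
    rw [tri_cast, tri_cast]
    push_cast
    field_simp
    ring
  push_cast
  generalize lg (k + 1) = y at *
  generalize lg k = x at *
  have hx : 0 < x := by linarith
  have hy : 0 < y := by linarith
  rw [div_sub_div _ _ hy.ne' hx.ne', div_le_div_iff₀ (by positivity) (by positivity),
    div_le_one (by positivity)]
  constructor
  · nlinarith [mul_le_mul_of_nonneg_left (show x ≤ ((k + 1) * x - y * k) * 2 by nlinarith) hy.le]
  · nlinarith [mul_nonneg (show (0 : ℝ) ≤ k by linarith) (sub_nonneg.2 a2)]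

theorem sig_grow {k n : ℕ} (hk : 81 ≤ k) (r : ℕ) (h : k + r ≤ n) :
    1 / (4 * log n) * r ≤ (k + r : ℕ) / lg (k + r) - k / lg k ∧
      (k + r : ℕ) / lg (k + r) - k / lg k ≤ r := by
  induction r with
  | zero => simp
  | succ r ih =>
    obtain ⟨a1, a2⟩ := ih (by omega)
    obtain ⟨b1, b2⟩ := sig_step (k := k + r) (by omega)
    have b3 := lg_le (k := k + r + 1) (n := n) (by omega) (by omega)
    have b4 := four_le_lg (k := k + r + 1) (by omega)
    have b5 := one_div_le_one_div_of_le (a := 2 * lg (k + r + 1)) (b := 4 * log n) (by linarith)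
      (by linarith)
    rw [← add_assoc, Nat.cast_succ r]
    constructor <;> linarith

theorem reg {lo n : ℕ} {a : ℝ} (h : 81 ≤ lo) (hn : lo ≤ n) (ha : 1 ≤ a)
    (h1 : (a + 1) * (2 * log n) ≤ lo) :
    Reg (fun k => G (tri k)) (fun k => k / lg k) lo n a (n / lg n + 1) (1 / (4 * log n)) := by
  have hL : 0 < log n := log_pos (by exact_mod_cast (show 1 < n by omega))
  have hm : ∀ k m : ℕ, 81 ≤ k → k ≤ m → (k : ℝ) / lg k ≤ m / lg m := fun k m a b => by
    obtain ⟨r, rfl⟩ := Nat.exists_eq_add_of_le b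
    have c1 := (sig_grow a r le_rfl).1
    have c2 : 0 ≤ 1 / (4 * log (k + r : ℕ)) * r :=
      mul_nonneg (one_div_nonneg.2 (by linarith [log_natCast_nonneg (k + r)])) (Nat.cast_nonneg r)
    linarith
  refine ⟨G_mono.comp tri_mono, fun k a _ => ?_, fun k a b => ?_, fun k a b => ?_,
    fun k r a b => sig_grow (h.trans a) r b, ha, by positivity⟩
  · have b1 := G_low (x := tri k) (y := tri (k + 1)) (by have := le_tri k; omega)
      (tri_mono (Nat.le_succ k))
    have b2 := G_up (x := tri k) (y := tri (k + 1)) (by have := le_tri k; omega)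
      (tri_mono (Nat.le_succ k))
    have e : (tri (k + 1) : ℝ) - tri k = (k + 1 : ℕ) := by rw [tri_succ]; push_cast; ring
    rw [e] at b1 b2
    have b3 := hm k (k + 1) (h.trans a) (Nat.le_succ k)
    have b4 := four_le_lg (h.trans a)
    have b5 : 1 / lg k ≤ 1 := (div_le_one (by linarith)).2 (by linarith)
    rw [Nat.cast_succ, add_div] at b2
    rw [abs_le]
    simp only [lg] at b3 b5 ⊢
    constructor <;> linarith
  · refine le_trans ?_ (hm lo k h a)
    have b4 := four_le_lg h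
    rw [le_div_iff₀ (by linarith)]
    exact le_trans (mul_le_mul_of_nonneg_left (lg_le (by omega) hn) (by linarith)) h1
  · exact add_le_add_left (hm k n (h.trans a) b) 1

end Pool.Agent.P.MP_e3a3b0_nt
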