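import Pool.Agent.P.MP_e3a3b0_nt.Pmf

/-! First and second moments of coincidences of two independent walks. -/

namespace Pool.Agent.P.MP_e3a3b0_nt

open Finset

set_option linter.unusedSectionVars false

variable {ι : Type} [Fintype ι] [DecidableEq ι]

/-- coordinates of level at most `k` -/
def cum (τ : ι → ℕ) (k : ℕ) : Finset ι := univ.filter fun i => τ i ≤ k

/-- coordinates of level in `(k, k']` -/
def seg (τ : ι → ℕ) (k k' : ℕ) : Finset ι := univ.filter fun i => k < τ i ∧ τ i ≤ k'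

/-- the mean number of successes up to level `k` is close to `F k` -/
structure Mod (p : ι → ℝ) (τ : ι → ℕ) (F : ℕ → ℝ) (lo n : ℕ) (e : ℝ) : Prop where
  pb : Pb p
  half : ∀ i, lo < τ i → p i ≤ 1 / 2
  err : ∀ k, lo ≤ k → k ≤ n → |∑ i ∈ cum τ k, p i - F k| ≤ e

variable {p : ι → ℝ} {τ : ι → ℕ} {F : ℕ → ℝ} {lo n : ℕ} {e : ℝ}

theorem sum_cum {M : Type} [AddCommMonoid M] (f : ι → M) {k k' : ℕ} (h : k ≤ k') :
    ∑ i ∈ cum τ k', f i = ∑ i ∈ cum τ k, f i + ∑ i ∈ seg τ k k', f i := by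
  simp only [cum, seg, sum_filter, ← sum_add_distrib]
  refine sum_congr rfl fun i _ => ?_
  split_ifs <;> first | omega | simp

theorem sm_cum (ω : ι → Bool) {k k' : ℕ} (h : k ≤ k') :
    sm (cum τ k') ω = sm (cum τ k) ω + sm (seg τ k k') ω := sum_cum _ h

theorem sm_seg (ω : ι → Bool) {k k' k'' : ℕ} (h : k ≤ k') (h' : k' ≤ k'') :
    sm (seg τ k k'') ω = sm (seg τ k k') ω + sm (seg τ k' k'') ω := by
  have a1 := sm_cum (τ := τ) ω h
  have a2 := sm_cum (τ := τ) ω h'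
  have a3 := sm_cum (τ := τ) ω (h.trans h')
  omega

theorem dep_seg {s : Set ι} {k k' : ℕ} (h : ∀ i, k < τ i → τ i ≤ k' → i ∈ s) :
    Dep s (sm (seg τ k k')) :=
  (dep_sm _).mono fun i hi => h i (mem_filter.1 hi).2.1 (mem_filter.1 hi).2.2

theorem dep_cum {s : Set ι} {k : ℕ} (h : ∀ i, τ i ≤ k → i ∈ s) : Dep s (sm (cum τ k)) :=
  (dep_sm _).mono fun i hi => h i (mem_filter.1 hi).2

theorem Dep.two {X Y Z : Type} {s : Set ι} {f : (ι → Bool) → X} {g : (ι → Bool) → Y}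
    (hf : Dep s f) (hg : Dep s g) (Φ : X → Y → Z) : Dep s fun ω => Φ (f ω) (g ω) :=
  fun ω ω' H => by simp only [hf ω ω' H, hg ω ω' H]

theorem Mod.mean (h : Mod p τ F lo n e) {k k' : ℕ} (h1 : lo ≤ k) (h2 : k ≤ k') (h3 : k' ≤ n) :
    |∑ i ∈ seg τ k k', p i - (F k' - F k)| ≤ 2 * e := by
  have a1 := abs_le.1 (h.err k h1 (h2.trans h3))
  have a2 := abs_le.1 (h.err k' (h1.trans h2) h3)
  rw [sum_cum p h2] at a2
  rw [abs_le]; constructor <;> linarith [a1.1, a1.2, a2.1, a2.2]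

theorem conc (hp : Pb p) {A B : Finset ι} {x y e V R : ℝ} (hA : |∑ i ∈ A, p i - x| ≤ e)
    (hB : |∑ i ∈ B, p i - y| ≤ e) (hx : x + e ≤ V) (hy : y + e ≤ V) (hR : 0 < R) :
    Pr p (fun ω => 2 * R + 2 * e < |((sm A ω - sm B ω : ℤ) : ℝ) - (x - y)|) ≤ 2 * V / R ^ 2 := by
  rw [abs_le] at hA hB
  refine (Pr_mono hp (B := fun ω => R < |(sm A ω : ℝ) - ∑ i ∈ A, p i| ∨
    R < |(sm B ω : ℝ) - ∑ i ∈ B, p i|) fun ω h => ?_).trans ((Pr_or_le hp _ _).trans ?_)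
  · by_contra hc
    rw [not_or, not_lt, not_lt, abs_le, abs_le] at hc
    refine h.not_ge (abs_le.2 ?_)
    push_cast
    constructor <;> linarith [hc.1.1, hc.1.2, hc.2.1, hc.2.2, hA.1, hA.2, hB.1, hB.2]
  · refine (add_le_add (cheb hp A hR) (cheb hp B hR)).trans ?_
    rw [← add_div]
    gcongr
    linarith [hA.2, hB.2]

/-- the displacement of the two walks inside a window -/
def zz (τ : ι → ℕ) (kw mw k m : ℕ) (ω : ι → Bool) : ℤ := sm (seg τ kw k) ω - sm (seg τ m mw) ω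

theorem Mod.lip (h : Mod p τ F lo n e) {kw mw k m : ℕ} (h1 : lo ≤ kw) (h2 : kw ≤ k) (h3 : k ≤ m)
    (h4 : k ≤ n) {v : ℝ} (hv : 0 < v) (h5 : v + 2 * e ≤ F k - F kw) (u u' : ℤ) :
    Pr p (fun ω => zz τ kw mw k m ω = u') - 4 / v * |(u : ℝ) - u'| ≤
      Pr p (fun ω => zz τ kw mw k m ω = u) := by
  have a1 : ∀ z : ℤ, Pr p (fun ω => zz τ kw mw k m ω = z) = Ex p fun ω =>
      Pr p fun ω' => sm (seg τ kw k) ω' = z + sm (seg τ m mw) ω := fun z => by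
    simp only [Pr, zz, sub_eq_iff_eq_add]
    exact freeze p (s := {i | τ i ≤ k}) (dep_seg fun i a _ => not_le.2 (h3.trans_lt a))
      (dep_seg fun i _ a => a) fun x y => ind (y = z + x)
  rw [a1, a1, ← Ex_const p (4 / v * |(u : ℝ) - u'|), ← Ex_sub]
  refine Ex_mono h.pb fun ω => ?_
  have := pmf_lip h.pb (A := seg τ kw k) (fun i hi => h.half i (h1.trans_lt (mem_filter.1 hi).2.1))
    hv (by linarith [(abs_le.1 (h.mean h1 h2 h4)).1]) (u + sm (seg τ m mw) ω)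
    (u' + sm (seg τ m mw) ω)
  rwa [Int.cast_add, Int.cast_add, add_sub_add_right_eq_sub] at this

theorem Mod.pair (h : Mod p τ F lo n e) {kw mw k m k' m' : ℕ} (h1 : lo ≤ kw) (h2 : kw ≤ k)
    (h3 : k ≤ k') (h4 : k' ≤ m') (h5 : m' ≤ m) (h6 : m ≤ mw) (h7 : mw ≤ n) {v : ℝ} (hv : 0 < v)
    (h8 : v + 2 * e ≤ F k' - F k) (z : ℤ) :
    Pr p (fun ω => zz τ kw mw k m ω = z ∧ zz τ kw mw k' m' ω = z) ≤
      1 / √v * Pr p fun ω => zz τ kw mw k m ω = z := by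
  refine (Pr_mono h.pb (B := fun ω => zz τ kw mw k m ω = z ∧
    sm (seg τ k k') ω = sm (seg τ m' m) ω) fun ω H => ⟨H.1, ?_⟩).trans ?_
  · have a1 := sm_seg (τ := τ) ω h2 h3
    have a2 := sm_seg (τ := τ) ω h5 h6
    simp only [zz] at H
    omega
  have a0 : ∀ {x y : ℕ}, y ≤ k ∨ k' ≤ x → Dep {i | k < τ i ∧ τ i ≤ k'}ᶜ (sm (seg τ x y)) :=
    fun H => dep_seg fun i a b => by simp only [Set.mem_compl_iff, Set.mem_ofPred_eq]; omega
  rw [Pr, freeze p (s := {i | k < τ i ∧ τ i ≤ k'})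
    (f := fun ω => (zz τ kw mw k m ω, sm (seg τ m' m) ω)) (g := sm (seg τ k k'))
    (((a0 (Or.inl le_rfl)).two (a0 (Or.inr (by omega))) fun x y => x - y).two
      (a0 (Or.inr h4)) Prod.mk) (dep_seg fun i a b => ⟨a, b⟩)
    fun x y => ind (x.1 = z ∧ y = x.2), Pr, ← Ex_mul]
  refine Ex_mono h.pb fun ω => ?_
  simp only [ind_and, Ex_mul]
  rw [mul_comm]
  exact mul_le_mul_of_nonneg_right (pmf_le h.pb
    (fun i hi => h.half i ((h1.trans h2).trans_lt (mem_filter.1 hi).2.1)) hv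
    (by linarith [(abs_le.1 (h.mean (h1.trans h2) h3 (by omega))).1]) _) (ind_nonneg _)

theorem Mod.one (h : Mod p τ F lo n e) {kw mw k1 m1 k m : ℕ} (h1 : lo ≤ kw) (h2 : kw ≤ k1)
    (h3 : k1 ≤ k) (h4 : k ≤ m) (h5 : m ≤ m1) (h6 : m1 ≤ mw) (h7 : mw ≤ n) {v0 V R l : ℝ}
    (hv : 0 < v0) (h8 : v0 + 2 * e ≤ F k1 - F kw) (h9 : F k - F k1 + 2 * e ≤ V)
    (h10 : F m1 - F m + 2 * e ≤ V) (hR : 0 < R) {z v : ℤ}
    (h11 : |(z : ℝ) - (F k - F k1 - (F m1 - F m)) - v| ≤ l) :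
    (1 - 2 * V / R ^ 2) *
      max 0 (Pr p (fun ω => zz τ kw mw k1 m1 ω = v) - 4 / v0 * (2 * R + 4 * e + l)) ≤
      Pr p fun ω => zz τ kw mw k m ω = z := by
  have a1 := conc h.pb (h.mean (h1.trans h2) h3 (by omega)) (h.mean (by omega) h5 (by omega))
    h9 h10 hR
  have a2 : Pr p (fun ω => zz τ kw mw k m ω = z) = Ex p fun ω => Pr p fun ω' =>
      zz τ kw mw k1 m1 ω' = z - (sm (seg τ k1 k) ω - sm (seg τ m m1) ω) := by
    have b0 : ∀ {x y : ℕ}, y ≤ k1 ∨ m1 ≤ x → Dep {i | τ i ≤ k1 ∨ m1 < τ i} (sm (seg τ x y)) :=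
      fun H => dep_seg fun i a b => by simp only [Set.mem_ofPred_eq]; omega
    have b1 : ∀ {x y : ℕ}, k1 ≤ x → y ≤ m1 → Dep {i | τ i ≤ k1 ∨ m1 < τ i}ᶜ (sm (seg τ x y)) :=
      fun H H' => dep_seg fun i a b => by simp only [Set.mem_compl_iff, Set.mem_ofPred_eq]; omega
    simp only [Pr]
    rw [← freeze p (g := zz τ kw mw k1 m1) ((b1 le_rfl (h4.trans h5)).two
      (b1 (h3.trans h4) le_rfl) fun x y => x - y)
      ((b0 (Or.inl le_rfl)).two (b0 (Or.inr le_rfl)) fun x y => x - y) fun x y => ind (y = z - x)]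
    congr 1; funext ω; congr 1
    have a1 := sm_seg (τ := τ) ω h2 h3
    have a2 := sm_seg (τ := τ) ω h5 h6
    simp only [zz, eq_iff_iff]
    omega
  rw [a2]
  refine le_trans (mul_le_mul_of_nonneg_right (sub_le_sub_left a1 1) (le_max_left _ _)) ?_
  rw [← Pr_not, Pr, ← Ex_mul']
  refine Ex_mono h.pb fun ω => ?_
  by_cases H : 2 * R + 2 * (2 * e) < |((sm (seg τ k1 k) ω - sm (seg τ m m1) ω : ℤ) : ℝ) -
    (F k - F k1 - (F m1 - F m))|
  · rw [ind_neg (not_not.2 H), zero_mul]; exact Pr_nonneg h.pb _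
  · rw [ind_pos H, one_mul]
    refine max_le (Pr_nonneg h.pb _) (le_trans (sub_le_sub_left ?_ _)
      (h.lip h1 h2 (by omega) (by omega) hv h8 _ v))
    refine mul_le_mul_of_nonneg_left ?_ (by positivity)
    rw [not_lt, abs_le] at H
    rw [abs_le] at h11 ⊢
    rw [Int.cast_sub]
    constructor <;> linarith [H.1, H.2, h11.1, h11.2]

theorem sum_pmf (p : ι → ℝ) (Z : (ι → Bool) → ℤ) (s : Finset ℤ) :
    ∑ v ∈ s, Pr p (fun ω => Z ω = v) = Pr p fun ω => Z ω ∈ s := by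
  simp only [Pr, ← Ex_sum]
  congr 1; funext ω
  by_cases h : Z ω ∈ s
  · rw [ind_pos h, sum_eq_single_of_mem _ h fun v _ hv => ind_neg hv.symm, ind_pos rfl]
  · rw [ind_neg h]
    exact sum_eq_zero fun v hv => ind_neg fun e => h (e ▸ hv)

open Classical in
theorem Mod.block (h : Mod p τ F lo n e) {kw mw k1 s l : ℕ} {g : ℕ → ℕ} {z : ℤ}
    {K R0 R V0 V v0 n0 : ℝ} (h1 : lo ≤ kw) (h2 : kw ≤ k1)
    (h3 : ∀ k ∈ Ico k1 (k1 + s), k ≤ g k ∧ g k ≤ g k1 ∧ F k - F k1 + 2 * e ≤ V ∧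
      F (g k1) - F (g k) + 2 * e ≤ V) (h4 : k1 ≤ g k1) (h6 : g k1 ≤ mw) (h7 : mw ≤ n)
    (hv : 0 < v0) (h8 : v0 + 2 * e ≤ F k1 - F kw) (h9 : F k1 - F kw + 2 * e ≤ V0)
    (h10 : F mw - F (g k1) + 2 * e ≤ V0) (hR0 : 0 < R0) (hR : 0 < R) (hK : 2 * R0 + 4 * e ≤ K)
    (he : 0 ≤ e) (h11 : 2 * V / R ^ 2 ≤ 1) (hn : 0 ≤ n0)
    (h12 : ∀ x : ℝ, |x| ≤ K → n0 ≤ ((Ico k1 (k1 + s)).filter fun k =>
      x ≤ F kw + F mw + z - F k - F (g k) ∧ F kw + F mw + z - F k - F (g k) < x + l).card) :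
    n0 * (1 - 2 * V / R ^ 2) *
      (1 - 2 * V0 / R0 ^ 2 - (2 * K + 1) * (4 / v0 * (2 * R + 4 * e + l))) ≤
      l * ∑ k ∈ Ico k1 (k1 + s), Pr p fun ω => zz τ kw mw k (g k) ω = z := by
  set c0 := F k1 - F kw - (F mw - F (g k1)) with hc0
  set Λ := 4 / v0 * (2 * R + 4 * e + l) with hΛ
  have hΛ0 : 0 ≤ Λ := by positivity
  let y : ℕ → ℝ := fun k => F kw + F mw + z - F k - F (g k)
  have a1 : 1 - 2 * V0 / R0 ^ 2 ≤
      ∑ v ∈ Icc ⌈c0 - K⌉ ⌊c0 + K⌋, Pr p fun ω => zz τ kw mw k1 (g k1) ω = v := by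
    rw [sum_pmf]
    refine (sub_le_sub_left (conc h.pb (h.mean h1 h2 (by omega)) (h.mean (by omega) h6 h7)
      h9 h10 hR0) 1).trans ?_
    rw [← Pr_not]
    refine Pr_mono h.pb fun ω H => ?_
    rw [not_lt, abs_le] at H
    simp only [zz]
    exact mem_Icc.2 ⟨Int.ceil_le.2 (by linarith [H.1]), Int.le_floor.2 (by linarith [H.2])⟩
  have a2 : ((Icc ⌈c0 - K⌉ ⌊c0 + K⌋).card : ℝ) ≤ 2 * K + 1 := by
    rw [Int.card_Icc, ← Int.cast_natCast, Int.ofNat_toNat, Int.cast_max]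
    push_cast
    exact max_le (by linarith [Int.le_ceil (c0 - K), Int.floor_le (c0 + K)]) (by linarith)
  have a3 : ∀ v ∈ Icc ⌈c0 - K⌉ ⌊c0 + K⌋, n0 * (1 - 2 * V / R ^ 2) *
      (Pr p (fun ω => zz τ kw mw k1 (g k1) ω = v) - Λ) ≤
      ∑ k ∈ Ico k1 (k1 + s), if v - c0 ≤ y k ∧ y k < v - c0 + l then
        Pr p fun ω => zz τ kw mw k (g k) ω = z else 0 := fun v hv' => by
    rw [← sum_filter]
    have b1 := Int.ceil_le.1 (mem_Icc.1 hv').1
    have b2 := Int.le_floor.1 (mem_Icc.1 hv').2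
    have b3 := h12 (v - c0) (abs_le.2 ⟨by linarith, by linarith⟩)
    refine le_trans ?_ (card_nsmul_le_sum _ _ ((1 - 2 * V / R ^ 2) *
      max 0 (Pr p (fun ω => zz τ kw mw k1 (g k1) ω = v) - Λ)) fun k hk => ?_)
    · rw [nsmul_eq_mul, mul_assoc]
      refine le_trans (mul_le_mul_of_nonneg_left (mul_le_mul_of_nonneg_left (le_max_right 0 _)
        (by linarith)) hn) (mul_le_mul_of_nonneg_right b3 ?_)
      exact mul_nonneg (by linarith) (le_max_left _ _)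
    · obtain ⟨c1, c2, c3⟩ := mem_filter.1 hk
      obtain ⟨d1, d2, d3, d4⟩ := h3 k c1
      refine h.one h1 h2 (mem_Ico.1 c1).1 d1 d2 h6 h7 hv h8 d3 d4 hR (abs_le.2 ?_)
      simp only [y] at c2 c3
      constructor <;> linarith [(Nat.cast_nonneg l : (0 : ℝ) ≤ l)]
  have a4 := sum_le_sum a3
  rw [sum_comm, ← mul_sum, sum_sub_distrib, sum_const, nsmul_eq_mul] at a4
  refine le_trans (mul_le_mul_of_nonneg_left ?_ (mul_nonneg hn (by linarith))) (a4.trans ?_)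
  · linarith [mul_le_mul_of_nonneg_right a2 hΛ0]
  · rw [mul_sum]
    refine sum_le_sum fun k _ => ?_
    rw [← sum_filter, sum_const, nsmul_eq_mul]
    refine mul_le_mul_of_nonneg_right (Nat.cast_le.2 ?_) (Pr_nonneg h.pb _)
    refine (card_le_card (t := Ioc (⌊y k + c0⌋ - l) ⌊y k + c0⌋) fun v hv' => ?_).trans (by simp)
    obtain ⟨-, c2, c3⟩ := mem_filter.1 hv'
    refine mem_Ioc.2 ⟨?_, Int.le_floor.2 (by linarith)⟩
    rw [sub_lt_iff_lt_add, Int.floor_lt]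
    push_cast; linarith

theorem sum_inv_sqrt (t : ℕ) : ∑ r ∈ range t, 1 / √((r : ℝ) + 1) ≤ 2 * √t := by
  induction t with
  | zero => simp
  | succ t ih =>
    rw [sum_range_succ, Nat.cast_succ]
    have a1 : 0 < √((t : ℝ) + 1) := by positivity
    have a2 := Real.sq_sqrt (show (0 : ℝ) ≤ t + 1 by positivity)
    have a3 := Real.sq_sqrt (show (0 : ℝ) ≤ t by positivity)
    have : 1 / √((t : ℝ) + 1) ≤ 2 * √(t + 1) - 2 * √t := by
      rw [div_le_iff₀ a1]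
      nlinarith [sq_nonneg (√((t : ℝ) + 1) - √t)]
    linarith

theorem sum_blocks {f : ℕ → ℝ} {y : ℝ} {k0 s : ℕ} (J : ℕ)
    (h : ∀ j < J, y ≤ ∑ k ∈ Ico (k0 + j * s) (k0 + j * s + s), f k) :
    J * y ≤ ∑ k ∈ Ico k0 (k0 + J * s), f k := by
  induction J with
  | zero => simp
  | succ J ih =>
    rw [Nat.succ_mul, ← add_assoc,
      ← sum_Ico_consecutive f (Nat.le_add_right k0 (J * s)) (Nat.le_add_right _ s), Nat.cast_succ]
    linarith [ih fun j hj => h j (by omega), h J (by omega)]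

end Pool.Agent.P.MP_e3a3b0_nt
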