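import Mathlib

/-! Finite products of biased coins: expectation, freezing, Chebyshev, chains of events. -/

namespace Pool.Agent.P.MP_e3a3b0_nt

open Finset

set_option linter.unusedSectionVars false

variable {ι : Type} [Fintype ι] [DecidableEq ι]

/-- the weight of an outcome -/
noncomputable def wt (p : ι → ℝ) (ω : ι → Bool) : ℝ := ∏ i, if ω i then p i else 1 - p i

/-- expectation -/
noncomputable def Ex (p : ι → ℝ) (f : (ι → Bool) → ℝ) : ℝ := ∑ ω, wt p ω * f ω

open Classical in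
/-- indicator -/
noncomputable def ind (A : Prop) : ℝ := if A then 1 else 0

/-- probability -/
noncomputable def Pr (p : ι → ℝ) (A : (ι → Bool) → Prop) : ℝ := Ex p fun ω => ind (A ω)

/-- `f` depends only on the coordinates in `s` -/
def Dep {X : Type} (s : Set ι) (f : (ι → Bool) → X) : Prop :=
  ∀ ω ω', (∀ i ∈ s, ω i = ω' i) → f ω = f ω'

open Classical in
/-- take `ω'` on `s` and `ω` outside -/
noncomputable def spl (s : Set ι) (ω ω' : ι → Bool) : ι → Bool :=
  fun i => if i ∈ s then ω' i else ω i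

/-- the number of successes in `A` -/
def sm (A : Finset ι) (ω : ι → Bool) : ℤ := ∑ i ∈ A, if ω i then 1 else 0

/-- all probabilities lie in the unit interval -/
def Pb (p : ι → ℝ) : Prop := ∀ i, 0 ≤ p i ∧ p i ≤ 1

variable {p : ι → ℝ}

theorem ind_pos {A : Prop} (h : A) : ind A = 1 := if_pos h
theorem ind_neg {A : Prop} (h : ¬ A) : ind A = 0 := if_neg h

theorem ind_nonneg (A : Prop) : 0 ≤ ind A := by unfold ind; split_ifs <;> norm_num
theorem ind_le_one (A : Prop) : ind A ≤ 1 := by unfold ind; split_ifs <;> norm_num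

theorem ind_mono {A B : Prop} (h : A → B) : ind A ≤ ind B := by
  by_cases a : A
  · rw [ind_pos a, ind_pos (h a)]
  · rw [ind_neg a]; exact ind_nonneg B

theorem ind_and (A B : Prop) : ind (A ∧ B) = ind A * ind B := by
  by_cases a : A <;> by_cases b : B <;> simp [ind, a, b]

theorem ind_not (A : Prop) : ind (¬ A) = 1 - ind A := by
  by_cases a : A <;> simp [ind, a]

theorem ind_or_le (A B : Prop) : ind (A ∨ B) ≤ ind A + ind B := by
  by_cases a : A <;> by_cases b : B <;> simp [ind, a, b]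

theorem wt_nonneg (hp : Pb p) (ω : ι → Bool) : 0 ≤ wt p ω :=
  prod_nonneg fun i _ => by
    split_ifs
    · exact (hp i).1
    · linarith [(hp i).2]

theorem sum_prod_coord {R : Type} [CommSemiring R] (f : ι → Bool → R) :
    ∑ ω : ι → Bool, ∏ i, f i (ω i) = ∏ i, (f i true + f i false) := by
  have := Finset.prod_univ_sum (fun _ : ι => (univ : Finset Bool)) f
  rw [Fintype.piFinset_univ] at this
  rw [← this]
  exact prod_congr rfl fun i _ => by simp

theorem sum_wt (p : ι → ℝ) : ∑ ω, wt p ω = 1 := by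
  unfold wt
  rw [sum_prod_coord fun i b => if b then p i else 1 - p i]
  simp

theorem Ex_const (p : ι → ℝ) (c : ℝ) : Ex p (fun _ => c) = c := by
  rw [Ex, ← sum_mul, sum_wt, one_mul]

theorem Ex_mono (hp : Pb p) {f g : (ι → Bool) → ℝ} (h : ∀ ω, f ω ≤ g ω) : Ex p f ≤ Ex p g :=
  sum_le_sum fun ω _ => mul_le_mul_of_nonneg_left (h ω) (wt_nonneg hp ω)

theorem Ex_add (p : ι → ℝ) (f g : (ι → Bool) → ℝ) :
    Ex p (fun ω => f ω + g ω) = Ex p f + Ex p g := by
  simp only [Ex, mul_add, sum_add_distrib]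

theorem Ex_sub (p : ι → ℝ) (f g : (ι → Bool) → ℝ) :
    Ex p (fun ω => f ω - g ω) = Ex p f - Ex p g := by
  simp only [Ex, mul_sub, sum_sub_distrib]

theorem Ex_mul (p : ι → ℝ) (c : ℝ) (f : (ι → Bool) → ℝ) :
    Ex p (fun ω => c * f ω) = c * Ex p f := by
  simp only [Ex, mul_sum, mul_left_comm]

theorem Ex_mul' (p : ι → ℝ) (c : ℝ) (f : (ι → Bool) → ℝ) :
    Ex p (fun ω => f ω * c) = Ex p f * c := by
  simp only [Ex, sum_mul, mul_assoc]

theorem Ex_sum {κ : Type} (p : ι → ℝ) (s : Finset κ) (f : κ → (ι → Bool) → ℝ) :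
    Ex p (fun ω => ∑ k ∈ s, f k ω) = ∑ k ∈ s, Ex p (f k) := by
  simp only [Ex, mul_sum]
  exact sum_comm

theorem Ex_le (hp : Pb p) {f : (ι → Bool) → ℝ} {c : ℝ} (h : ∀ ω, f ω ≤ c) : Ex p f ≤ c :=
  (Ex_mono hp h).trans (Ex_const p c).le

theorem le_Ex (hp : Pb p) {f : (ι → Bool) → ℝ} {c : ℝ} (h : ∀ ω, c ≤ f ω) : c ≤ Ex p f :=
  (Ex_const p c).ge.trans (Ex_mono hp h)

theorem Pr_nonneg (hp : Pb p) (A : (ι → Bool) → Prop) : 0 ≤ Pr p A :=
  le_Ex hp fun _ => ind_nonneg _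

theorem Pr_le_one (hp : Pb p) (A : (ι → Bool) → Prop) : Pr p A ≤ 1 :=
  Ex_le hp fun _ => ind_le_one _

theorem Pr_mono (hp : Pb p) {A B : (ι → Bool) → Prop} (h : ∀ ω, A ω → B ω) : Pr p A ≤ Pr p B :=
  Ex_mono hp fun ω => ind_mono (h ω)

theorem Pr_not (p : ι → ℝ) (A : (ι → Bool) → Prop) : Pr p (fun ω => ¬ A ω) = 1 - Pr p A := by
  simp only [Pr, ind_not, Ex_sub, Ex_const]

theorem Pr_or_le (hp : Pb p) (A B : (ι → Bool) → Prop) :
    Pr p (fun ω => A ω ∨ B ω) ≤ Pr p A + Pr p B := by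
  rw [Pr, Pr, Pr, ← Ex_add]
  exact Ex_mono hp fun ω => ind_or_le _ _

theorem Pr_exists_le (hp : Pb p) {κ : Type} (s : Finset κ) (A : κ → (ι → Bool) → Prop) :
    Pr p (fun ω => ∃ k ∈ s, A k ω) ≤ ∑ k ∈ s, Pr p (A k) := by
  simp only [Pr, ← Ex_sum]
  refine Ex_mono hp fun ω => ?_
  by_cases h : ∃ k ∈ s, A k ω
  · obtain ⟨k, hk, h1⟩ := h
    refine (ind_le_one _).trans ((ind_pos h1).ge.trans ?_)
    exact single_le_sum (f := fun k => ind (A k ω)) (fun _ _ => ind_nonneg _) hk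
  · rw [ind_neg h]; exact sum_nonneg fun _ _ => ind_nonneg _

theorem Dep.mono {X : Type} {s t : Set ι} {f : (ι → Bool) → X} (h : Dep s f) (e : s ⊆ t) :
    Dep t f := fun ω ω' H => h ω ω' fun i hi => H i (e hi)

theorem Dep.spl_in {X : Type} {s : Set ι} {f : (ι → Bool) → X} (h : Dep s f) (ω ω' : ι → Bool) :
    f (spl s ω ω') = f ω' := h _ _ fun _ hi => if_pos hi

theorem Dep.spl_out {X : Type} {s : Set ι} {f : (ι → Bool) → X} (h : Dep sᶜ f)
    (ω ω' : ι → Bool) : f (spl s ω ω') = f ω := h _ _ fun _ hi => if_neg hi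

theorem dep_sm (A : Finset ι) : Dep (A : Set ι) (sm A) := fun _ _ H =>
  sum_congr rfl fun i hi => by rw [H i hi]

theorem Ex_spl (p : ι → ℝ) (s : Set ι) (f : (ι → Bool) → ℝ) :
    Ex p f = Ex p fun ω => Ex p fun ω' => f (spl s ω ω') := by
  have hi : Function.Involutive fun x : (ι → Bool) × (ι → Bool) =>
      (spl s x.1 x.2, spl s x.2 x.1) := fun x => by
    refine Prod.ext (funext fun i => ?_) (funext fun i => ?_) <;>
      simp only [spl] <;> split_ifs <;> rfl
  have h1 : ∀ ω ω' : ι → Bool, wt p (spl s ω ω') * wt p (spl s ω' ω) = wt p ω * wt p ω' :=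
    fun ω ω' => by
      simp only [wt, ← prod_mul_distrib]
      refine prod_congr rfl fun i _ => ?_
      by_cases h : i ∈ s
      · simp only [spl, if_pos h]; exact mul_comm _ _
      · simp only [spl, if_neg h]
  calc Ex p f = ∑ x : (ι → Bool) × (ι → Bool), wt p x.1 * wt p x.2 * f x.1 := by
        rw [Fintype.sum_prod_type, Ex]
        refine sum_congr rfl fun ω _ => ?_
        simp only [mul_right_comm _ _ (f ω), ← mul_sum, sum_wt, mul_one]
    _ = ∑ x : (ι → Bool) × (ι → Bool), wt p x.1 * wt p x.2 * f (spl s x.1 x.2) := by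
        rw [← Equiv.sum_comp hi.toPerm]
        exact sum_congr rfl fun x _ => by rw [← h1 x.1 x.2]; rfl
    _ = _ := by
        rw [Fintype.sum_prod_type, Ex]
        simp only [Ex, mul_sum, mul_assoc]

/-- freezing -/
theorem freeze {X Y : Type} (p : ι → ℝ) {s : Set ι} {f : (ι → Bool) → X} {g : (ι → Bool) → Y}
    (hf : Dep sᶜ f) (hg : Dep s g) (Φ : X → Y → ℝ) :
    Ex p (fun ω => Φ (f ω) (g ω)) = Ex p fun ω => Ex p fun ω' => Φ (f ω) (g ω') := by
  rw [Ex_spl p s]
  simp only [hf.spl_out, hg.spl_in]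

theorem Ex_coord (p : ι → ℝ) (i : ι) (φ : Bool → ℝ) :
    Ex p (fun ω => φ (ω i)) = p i * φ true + (1 - p i) * φ false := by
  have h := sum_prod_coord fun j b =>
    (if b then p j else 1 - p j) * (if j = i then φ b else 1)
  simp only [prod_mul_distrib, prod_ite_eq', mem_univ, if_true] at h
  rw [Ex]
  refine h.trans ?_
  rw [prod_eq_single i (fun j _ hj => by simp [hj]) (by simp)]
  simp

theorem var_sm (hp : Pb p) (A : Finset ι) :
    Ex p (fun ω => (sm A ω : ℝ) - ∑ i ∈ A, p i) = 0 ∧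
    Ex p (fun ω => ((sm A ω : ℝ) - ∑ i ∈ A, p i) ^ 2) ≤ ∑ i ∈ A, p i := by
  induction A using Finset.induction_on with
  | empty => simp [sm, Ex]
  | insert i A hi ih =>
    have e : ∀ ω : ι → Bool, (sm (insert i A) ω : ℝ) - ∑ j ∈ insert i A, p j =
        ((if ω i then 1 else 0) - p i) + ((sm A ω : ℝ) - ∑ j ∈ A, p j) := fun ω => by
      rw [sm, sum_insert hi, sum_insert hi, sm]
      push_cast; ring
    have h1 : Ex p (fun ω => (if ω i then (1 : ℝ) else 0) - p i) = 0 := by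
      rw [Ex_coord p i fun b => (if b then (1 : ℝ) else 0) - p i]; simp; ring
    have h2 : Ex p (fun ω => ((if ω i then (1 : ℝ) else 0) - p i) ^ 2) ≤ p i := by
      rw [Ex_coord p i fun b => ((if b then (1 : ℝ) else 0) - p i) ^ 2]
      simp only [if_true, Bool.false_eq_true, if_false]
      nlinarith [(hp i).1, (hp i).2]
    have h3 : Ex p (fun ω => ((if ω i then (1 : ℝ) else 0) - p i) *
        ((sm A ω : ℝ) - ∑ j ∈ A, p j)) = 0 := by
      rw [freeze p (s := (A : Set ι)) (f := fun ω => ω i) (fun ω ω' H => H i hi) (dep_sm A)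
        fun b z => ((if b then (1 : ℝ) else 0) - p i) * ((z : ℝ) - ∑ j ∈ A, p j)]
      simp only [Ex_mul, ih.1, mul_zero, Ex_const]
    simp only [e]
    refine ⟨by rw [Ex_add, h1, ih.1, add_zero], ?_⟩
    simp only [add_sq, mul_assoc, Ex_add, Ex_mul, h3, sum_insert hi]
    linarith [ih.2]

theorem cheb (hp : Pb p) (A : Finset ι) {R : ℝ} (hR : 0 < R) :
    Pr p (fun ω => R < |(sm A ω : ℝ) - ∑ i ∈ A, p i|) ≤ (∑ i ∈ A, p i) / R ^ 2 := by
  rw [le_div_iff₀ (by positivity), Pr, ← Ex_mul']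
  refine (Ex_mono hp fun ω => ?_).trans (var_sm hp A).2
  by_cases h : R < |(sm A ω : ℝ) - ∑ i ∈ A, p i|
  · rw [ind_pos h, one_mul, ← sq_abs (_ - _)]
    gcongr
  · rw [ind_neg h, zero_mul]; positivity

/-- Bonferroni -/
theorem bonf (hp : Pb p) (s : Finset ℕ) (A : ℕ → (ι → Bool) → Prop) {ε : ℝ}
    (h : ∀ k ∈ s, ∑ k' ∈ s with k < k', Pr p (fun ω => A k ω ∧ A k' ω) ≤ ε * Pr p (A k)) :
    (1 - ε) * ∑ k ∈ s, Pr p (A k) ≤ Pr p fun ω => ∃ k ∈ s, A k ω := by
  have h1 : ∑ k ∈ s, (Pr p (A k) - ∑ k' ∈ s with k < k', Pr p (fun ω => A k ω ∧ A k' ω)) ≤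
      Pr p fun ω => ∃ k ∈ s, A k ω := by
    simp only [Pr, ← Ex_sum, ← Ex_sub]
    refine Ex_mono hp fun ω => ?_
    have h2 : ∀ k ∈ s, (∃ k' ∈ s, k < k' ∧ A k' ω) ∨ ¬ A k ω →
        ind (A k ω) - ∑ k' ∈ s with k < k', ind (A k ω ∧ A k' ω) ≤ 0 := fun k hk H => by
      by_cases a : A k ω
      · obtain ⟨k', h3, h4, h5⟩ := H.resolve_right (not_not.2 a)
        rw [sub_nonpos, ind_pos a, ← ind_pos (And.intro a h5)]
        exact single_le_sum (f := fun k' => ind (A k ω ∧ A k' ω)) (fun _ _ => ind_nonneg _)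
          (mem_filter.2 ⟨h3, h4⟩)
      · rw [ind_neg a, sub_nonpos]; exact sum_nonneg fun _ _ => ind_nonneg _
    by_cases H : ∃ k ∈ s, A k ω
    · classical
      rw [ind_pos H]
      have hne : (s.filter fun k => A k ω).Nonempty := by
        obtain ⟨k, a, b⟩ := H; exact ⟨k, mem_filter.2 ⟨a, b⟩⟩
      have hm := mem_filter.1 (max'_mem _ hne)
      rw [← add_sum_erase _ _ hm.1]
      have h3 := sum_nonpos (s := s.erase (max' _ hne)) fun k hk => h2 k (mem_of_mem_erase hk) (by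
        by_cases a : A k ω
        · exact Or.inl ⟨_, hm.1, lt_of_le_of_ne (le_max' _ k (mem_filter.2
            ⟨mem_of_mem_erase hk, a⟩)) (ne_of_mem_erase hk), hm.2⟩
        · exact Or.inr a)
      have h4 := sum_nonneg (s := s.filter fun k' => max' _ hne < k') fun k' _ =>
        ind_nonneg (A (max' _ hne) ω ∧ A k' ω)
      linarith [ind_le_one (A (max' _ hne) ω)]
    · rw [ind_neg H]
      exact sum_nonpos fun k hk => h2 k hk (Or.inr fun a => H ⟨k, hk, a⟩)
  refine le_trans ?_ h1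
  rw [mul_sum]
  exact sum_le_sum fun k hk => by linarith [h k hk]

/-- a chain of events, each of conditional probability at least `q` -/
theorem chain (hp : Pb p) (s : ℕ → Set ι) (H : ℕ → (ι → Bool) → Prop) {c q : ℝ} (hc : 0 ≤ c)
    (hc1 : c ≤ 1) (W : ℕ) (h1 : ∀ w < W, ∀ w' < w, Dep (s w)ᶜ (H w'))
    (h2 : ∀ w < W, ∀ ω, q ≤ Pr p fun ω' => H w (spl (s w) ω ω')) :
    Ex p (fun ω => ∏ w ∈ range W, (1 - c * ind (H w ω))) ≤ Real.exp (-(c * q * W)) := by
  induction W with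
  | zero => simp [Ex_const]
  | succ W ih =>
    have h3 := ih (fun w hw => h1 w (by omega)) fun w hw => h2 w (by omega)
    rw [Ex_spl p (s W)]
    have h4 : ∀ ω, Ex p (fun ω' => ∏ w ∈ range (W + 1), (1 - c * ind (H w (spl (s W) ω ω')))) ≤
        (∏ w ∈ range W, (1 - c * ind (H w ω))) * Real.exp (-(c * q)) := fun ω => by
      have e : ∀ ω', ∏ w ∈ range W, (1 - c * ind (H w (spl (s W) ω ω'))) =
          ∏ w ∈ range W, (1 - c * ind (H w ω)) := fun ω' =>
        prod_congr rfl fun w hw => by rw [(h1 W (by omega) w (mem_range.1 hw)).spl_out]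
      simp only [prod_range_succ, e, Ex_mul, Ex_sub, Ex_const]
      refine mul_le_mul_of_nonneg_left ?_ (prod_nonneg fun w _ => by
        nlinarith [ind_le_one (H w ω), ind_nonneg (H w ω)])
      have h5 := h2 W (by omega) ω
      have h6 := Real.add_one_le_exp (-(c * q))
      rw [Pr] at h5
      nlinarith
    refine (Ex_mono hp h4).trans ?_
    rw [Ex_mul', Nat.cast_succ, mul_add, neg_add, Real.exp_add, mul_one]
    exact mul_le_mul_of_nonneg_right h3 (Real.exp_pos _).le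

open Classical in
theorem chain_tail (hp : Pb p) (s : ℕ → Set ι) (H : ℕ → (ι → Bool) → Prop) {θ q x : ℝ}
    (hθ : 0 ≤ θ) (W : ℕ) (h1 : ∀ w < W, ∀ w' < w, Dep (s w)ᶜ (H w'))
    (h2 : ∀ w < W, ∀ ω, q ≤ Pr p fun ω' => H w (spl (s w) ω ω')) :
    Pr p (fun ω => (((range W).filter fun w => H w ω).card : ℝ) < x) ≤
      Real.exp (θ * x - (1 - Real.exp (-θ)) * q * W) := by
  have h3 := chain hp s H (c := 1 - Real.exp (-θ))
    (by linarith [Real.exp_le_one_iff.2 (neg_nonpos.2 hθ)]) (by linarith [Real.exp_pos (-θ)]) W h1 h2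
  rw [sub_eq_add_neg, Real.exp_add]
  refine le_trans ?_ (mul_le_mul_of_nonneg_left h3 (Real.exp_pos _).le)
  rw [← Ex_mul]
  refine Ex_mono hp fun ω => ?_
  have e : ∏ w ∈ range W, (1 - (1 - Real.exp (-θ)) * ind (H w ω)) =
      Real.exp (-θ) ^ ((range W).filter fun w => H w ω).card := by
    rw [← prod_const, prod_filter]
    refine prod_congr rfl fun w _ => ?_
    split_ifs with h
    · rw [ind_pos h]; ring
    · rw [ind_neg h]; ring
  rw [e, ← Real.exp_nat_mul, ← Real.exp_add]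
  by_cases h : (((range W).filter fun w => H w ω).card : ℝ) < x
  · rw [ind_pos h]
    exact Real.one_le_exp (by nlinarith)
  · rw [ind_neg h]; exact (Real.exp_pos _).le

end Pool.Agent.P.MP_e3a3b0_nt
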