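import Pool.Agent.P.MP_e3a3b0_nt.Num

/-! Transfer to a sequence of independent events. -/

namespace Pool.Agent.P.MP_e3a3b0_nt

open Finset Real MeasureTheory ProbabilityTheory Filter

variable {Ω : Type*} [MeasurableSpace Ω] {P : Measure Ω} {E : ℕ → Set Ω}

theorem atom (hE : ∀ l, MeasurableSet (E l)) (hi : iIndepSet E P) {N : ℕ} (η : Fin N → Bool) :
    P.real (⋂ i ∈ (univ : Finset (Fin N)), if η i then E i else (E i)ᶜ) =
      wt (fun i : Fin N => P.real (E i)) η := by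
  have := hi.isProbabilityMeasure
  have h1 := (iIndepSet_iff _ _).1 (hi.precomp (g := fun i : Fin N => (i : ℕ)) Fin.val_injective)
    univ (f := fun i => if η i then E i else (E i)ᶜ) fun i _ => by
      have b : MeasurableSet[MeasurableSpace.generateFrom {E i}] (E i) :=
        MeasurableSpace.measurableSet_generateFrom rfl
      by_cases c : η i
      · rw [if_pos c]; exact b
      · rw [if_neg c]; exact b.compl
  rw [measureReal_def, h1, ENNReal.toReal_prod, wt]
  refine prod_congr rfl fun i _ => ?_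
  split_ifs
  · rfl
  · rw [← measureReal_def, measureReal_compl (hE i), probReal_univ]

open Classical in
theorem real_le (hE : ∀ l, MeasurableSet (E l)) (hi : iIndepSet E P) (N : ℕ)
    (A : (Fin N → Bool) → Prop) :
    P.real {ω | A fun i => decide (ω ∈ E i)} ≤ Pr (fun i : Fin N => P.real (E i)) A := by
  have := hi.isProbabilityMeasure
  have h1 : {ω | A fun i => decide (ω ∈ E i)} ⊆ ⋃ η ∈ univ.filter A,
      ⋂ i ∈ (univ : Finset (Fin N)), if η i then E i else (E i)ᶜ := fun ω h => by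
    refine Set.mem_iUnion₂.2 ⟨_, mem_filter.2 ⟨mem_univ _, h⟩, Set.mem_iInter₂.2 fun i _ => ?_⟩
    by_cases c : ω ∈ E i <;> simp [c]
  refine (measureReal_mono h1 (measure_ne_top _ _)).trans ((measureReal_biUnion_finset_le _ _).trans (le_of_eq ?_))
  rw [sum_congr rfl fun η _ => atom hE hi η, Pr, Ex, sum_filter]
  refine sum_congr rfl fun η _ => ?_
  split_ifs with c
  · rw [ind_pos c, mul_one]
  · rw [ind_neg c, mul_zero]

/-- the level of an integer -/
noncomputable def lev (N : ℕ) (i : Fin N) : ℕ := sInf {k | (i : ℕ) ≤ tri k}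

theorem lev_le {N k : ℕ} {i : Fin N} : lev N i ≤ k ↔ (i : ℕ) ≤ tri k :=
  ⟨fun h => (Nat.sInf_mem (s := {k | (i : ℕ) ≤ tri k}) ⟨i, le_tri i⟩).trans (tri_mono h),
    fun h => Nat.sInf_le h⟩

theorem sum_lev {M : Type} [AddCommMonoid M] (f : ℕ → M) {k n : ℕ} (h : k ≤ n) :
    ∑ i ∈ cum (lev (tri n + 1)) k, f i = ∑ l ∈ range (tri k + 1), f l := by
  simp only [cum, lev_le, sum_filter]
  rw [Fin.sum_univ_eq_sum_range fun l => if l ≤ tri k then f l else 0, ← sum_filter]
  refine sum_congr (Finset.ext fun l => ?_) fun _ _ => rfl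
  have := tri_mono h
  simp only [mem_filter, mem_range]
  omega

open Classical in
theorem ncard_eq (A : Set ℕ) (y : ℕ) :
    ((A ∩ Set.Iic y).ncard : ℤ) = ∑ l ∈ range (y + 1), if decide (l ∈ A) then 1 else 0 := by
  have : A ∩ Set.Iic y = ((range (y + 1)).filter fun l => l ∈ A : Finset ℕ) := by
    ext l; simp [and_comm]
  rw [this, Set.ncard_coe_finset]
  simp

theorem main (hE : ∀ l, MeasurableSet (E l)) (hi : iIndepSet E P)
    (h1 : ∀ᶠ l in atTop, P.real (E l) ≤ 1 / 2)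
    (h2 : ∀ᶠ y : ℕ in atTop, |∑ l ∈ range (y + 1), P.real (E l) - G y| ≤ (y : ℝ) ^ (1 / 3 : ℝ)) :
    ∀ᵐ ω ∂P, ∀ᶠ n : ℕ in atTop, log n / 40 ≤ ({x : ℕ × ℕ | 1 < x.1 ∧ x.1 < x.2 ∧ x.2 < n ∧
      ({l | ω ∈ E l} ∩ Set.Iic (tri n)).ncard = ({l | ω ∈ E l} ∩ Set.Iic (tri x.1)).ncard +
        ({l | ω ∈ E l} ∩ Set.Iic (tri x.2)).ncard}.ncard : ℝ) := by
  classical
  have := hi.isProbabilityMeasure
  obtain ⟨c, hc⟩ := eventually_atTop.1 (h1.and h2)
  obtain ⟨d, hd⟩ := eventually_atTop.1 (ev_u.and (eventually_ge_atTop (100 * c + 1)))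
  let B : ℕ → Set Ω := fun n => {ω | d ≤ n ∧
    (rp (lev (tri n + 1)) n (fun i => decide (ω ∈ E i)) : ℝ) < log n / 40}
  have a1 : ∀ n, P (B n) ≤ ENNReal.ofReal (2 * (n : ℝ) ^ (-(53 / 50) : ℝ)) := fun n => by
    by_cases hn : d ≤ n
    · obtain ⟨⟨u, b1, b2, b3, b4⟩, b5⟩ := hd n hn
      rw [← ofReal_measureReal]
      have c0 := real_le hE hi (tri n + 1) fun η => (rp (lev (tri n + 1)) n η : ℝ) < log n / 40
      refine ENNReal.ofReal_le_ofReal (le_trans (measureReal_mono (fun ω h => h.2)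
        (measure_ne_top _ _)) (c0.trans ((main_fin (p := fun i : Fin (tri n + 1) => P.real (E i))
          b1 b2 b3 b4 ⟨fun i => ⟨measureReal_nonneg, measureReal_le_one⟩,
            fun i h => (hc i ?_).1, fun k e1 e2 => ?_⟩).trans_eq ?_)))
      · have := lev_le.not.1 (not_le.2 h)
        have := le_tri (n / 100 + 1)
        omega
      · rw [sum_lev (fun l => P.real (E l)) e2]
        refine (hc (tri k) (by have := le_tri k; omega)).2.trans ?_
        have U : (1 : ℝ) ≤ u := by exact_mod_cast (show 1 ≤ u by omega)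
        have c1 : (n : ℝ) ≤ 2 * (u : ℝ) ^ 100 := by exact_mod_cast b3
        have c2 : (tri k : ℝ) ≤ (2 * (u : ℝ) ^ 67) ^ 3 :=
          calc (tri k : ℝ) ≤ tri n := Nat.cast_le.2 (tri_mono e2)
            _ ≤ (n : ℝ) ^ 2 := tri_le n
            _ ≤ (2 * (u : ℝ) ^ 100) ^ 2 := pow_le_pow_left₀ (Nat.cast_nonneg n) c1 2
            _ = 4 * (u : ℝ) ^ 200 := by ring
            _ ≤ 8 * (u : ℝ) ^ 201 := mul_le_mul (by norm_num) (pow_le_pow_right₀ U (by norm_num))
                (pow_nonneg (Nat.cast_nonneg u) _) (by norm_num)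
            _ = _ := by ring
        refine (rpow_le_rpow (Nat.cast_nonneg _) c2 (by norm_num)).trans_eq ?_
        rw [one_div]
        exact pow_rpow_inv_natCast
          (mul_nonneg zero_le_two (pow_nonneg (Nat.cast_nonneg u) _)) three_ne_zero
      · rw [rpow_def_of_pos (Nat.cast_pos.2 (by omega)), mul_neg, mul_comm (log _)]
    · rw [show B n = ∅ from Set.eq_empty_of_forall_notMem fun ω h => hn h.1, measure_empty]
      exact zero_le
  have a2 : ∑' n, P (B n) ≠ ⊤ := ne_top_of_le_ne_top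
    ((summable_nat_rpow.2 (by norm_num)).mul_left 2).tsum_ofReal_ne_top (ENNReal.tsum_le_tsum a1)
  refine (ae_eventually_notMem a2).mono fun ω h => (h.and (eventually_ge_atTop d)).mono
    fun n hn => (not_lt.1 fun c => hn.1 ⟨hn.2, c⟩).trans (Nat.cast_le.2 ?_)
  rw [rp, ← Set.ncard_coe_finset]
  refine Set.ncard_le_ncard (fun x hx => ?_) ((Set.finite_Iio n).prod (Set.finite_Iio n) |>.subset
    fun x hx => ⟨hx.2.1.trans hx.2.2.1, hx.2.2.1⟩)
  obtain ⟨b1, b2, b3, b4⟩ := mem_filter.1 hx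
  obtain ⟨c1, c2⟩ := mem_product.1 b1
  rw [mem_range] at c1 c2
  refine ⟨b2, b3, c2, Int.natCast_inj.1 ?_⟩
  have e : ∀ k ≤ n, (({l | ω ∈ E l} ∩ Set.Iic (tri k)).ncard : ℤ) =
      sm (cum (lev (tri n + 1)) k) fun i => decide (ω ∈ E i) := fun k hk => by
    rw [ncard_eq, sm, sum_lev (fun l => if decide (ω ∈ E l) then (1 : ℤ) else 0) hk]
    rfl
  rw [Nat.cast_add, e n le_rfl, e _ c1.le, e _ c2.le, b4]

end Pool.Agent.P.MP_e3a3b0_nt
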