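import Pool.Agent.P.MP_e3a3b0_nt.Tail
import Pool.Agent.P.MP_e3a3b0_nt.Ana

/-! The choice of the parameters. -/

namespace Pool.Agent.P.MP_e3a3b0_nt

open Finset Real

theorem geo {n u K : ℕ} (hu : 10 ^ 4 ≤ u) (h1 : u ^ 100 ≤ n)
    (hL : 10 ^ 4 * log n ≤ u) (L1 : 100 ≤ log n) (L2 : log n ≤ 1 + 100 * log u)
    (hK : (K : ℝ) ≤ 66 / 100 * n) : 2 * G (tri K) < G (tri n) := by
  have U : (10 : ℝ) ^ 4 ≤ u := by exact_mod_cast hu
  have N1 : (u : ℝ) ^ 100 ≤ n := by exact_mod_cast h1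
  have p1 := pw hu 1 99 (by norm_num)
  have p2 := pw hu 99 100 (by norm_num)
  rw [pow_one] at p1
  have j1 : 81 ≤ u ^ 99 := by exact_mod_cast (show (81 : ℝ) ≤ (u : ℝ) ^ 99 by linarith)
  have n1 : 81 ≤ n := by exact_mod_cast (show (81 : ℝ) ≤ n by linarith)
  have N2 : (10 : ℝ) ^ 4 ≤ n := by linarith
  have a1 := G_low (x := 1) (y := tri n) le_rfl (by have := le_tri n; omega)
  have a2 : (n : ℝ) ^ 2 / 2 / (2 * log n) ≤ ((tri n : ℝ) - (1 : ℕ)) / log (tri n) := by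
    refine div_le_div₀ ?_ ?_ (lt_of_lt_of_le four_pos (four_le_lg n1)) (lg_le (by omega) le_rfl) <;>
      rw [tri_cast] <;> push_cast <;> nlinarith
  have a3 : G (tri (u ^ 99)) ≤ 2 * ((u : ℝ) ^ 99) ^ 2 := by
    have := tri_le (u ^ 99)
    push_cast at this
    linarith [G_le (tri (u ^ 99))]
  have a4 : 19 / 10 * log n ≤ lg (u ^ 99) := by
    have := le_lg (k := u ^ 99) (by omega)
    rw [Nat.cast_pow, log_pow] at this
    push_cast at this
    linarith
  have a5 : G (tri K) ≤ G (tri (u ^ 99)) + 22 / 100 * (n : ℝ) ^ 2 / (19 / 10 * log n) := by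
    rcases le_total K (u ^ 99) with c | c
    · exact (G_mono (tri_mono c)).trans (le_add_of_nonneg_right (by positivity))
    · have b1 := G_up (x := tri (u ^ 99)) (y := tri K) (by have := le_tri (u ^ 99); omega)
        (tri_mono c)
      rw [← sub_le_iff_le_add']
      refine b1.trans (div_le_div₀ (by positivity) ?_ (by positivity) a4)
      have b2 : (0 : ℝ) ≤ K := Nat.cast_nonneg K
      rw [tri_cast K]
      nlinarith [(Nat.cast_nonneg _ : (0 : ℝ) ≤ tri (u ^ 99))]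
  have a6 : ((u : ℝ) ^ 99) ^ 2 ≤ (n : ℝ) ^ 2 / log n / 1000 := by
    rw [le_div_iff₀ (by norm_num), le_div_iff₀ (by linarith)]
    have b1 : 1000 * log n ≤ (u : ℝ) ^ 2 := by nlinarith
    calc _ = ((u : ℝ) ^ 99) ^ 2 * (1000 * log n) := by ring
      _ ≤ ((u : ℝ) ^ 99) ^ 2 * (u : ℝ) ^ 2 := by gcongr
      _ = ((u : ℝ) ^ 100) ^ 2 := by ring
      _ ≤ _ := by gcongr
  have a7 : 0 < (n : ℝ) ^ 2 / log n := by positivity
  have e1 : (n : ℝ) ^ 2 / 2 / (2 * log n) = (n : ℝ) ^ 2 / log n / 4 := by field_simp; norm_num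
  have e2 : 22 / 100 * (n : ℝ) ^ 2 / (19 / 10 * log n) = (n : ℝ) ^ 2 / log n * (22 / 190) := by
    field_simp; norm_num
  rw [G_one] at a1
  linarith

variable {ι : Type} [Fintype ι] [DecidableEq ι] {p : ι → ℝ} {τ : ι → ℕ}

theorem main_fin {n u : ℕ} (hu : 10 ^ 4 ≤ u) (h1 : u ^ 100 ≤ n) (h2 : n ≤ 2 * u ^ 100)
    (hL : 10 ^ 4 * log n ≤ u)
    (hM : Mod p τ (fun k => G (tri k)) (n / 100 + 1) n (2 * (u : ℝ) ^ 67)) :
    Pr p (fun ω => (rp τ n ω : ℝ) < log n / 40) ≤ 2 * exp (-(53 / 50 * log n)) := by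
  have U : (10 : ℝ) ^ 4 ≤ u := by exact_mod_cast hu
  have U0 : (0 : ℝ) < u := by linarith
  have N1 : (u : ℝ) ^ 100 ≤ n := by exact_mod_cast h1
  have N2 : (n : ℝ) ≤ 2 * (u : ℝ) ^ 100 := by exact_mod_cast h2
  have p1 := pw hu 1 96 (by norm_num)
  have p2 := pw hu 96 99 (by norm_num)
  have p3 := pw hu 99 100 (by norm_num)
  rw [pow_one] at p1
  have N3 : (10 : ℝ) ^ 8 ≤ n := by linarith
  have n1 : 10 ^ 8 ≤ n := by exact_mod_cast N3
  have L1 : 100 ≤ log n := by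
    have a1 := log_le_log (by positivity) N1
    have a2 : 1 ≤ log u := by
      rw [le_log_iff_exp_le U0]; linarith [exp_one_lt_d9]
    rw [log_pow] at a1
    push_cast at a1
    linarith
  have L2 : log n ≤ 1 + 100 * log u := by
    have a1 := log_le_log (by linarith) N2
    rw [log_mul two_ne_zero (by positivity), log_pow] at a1
    push_cast at a1
    linarith [log_two_lt_d9]
  have l1 : (n : ℝ) / 100 ≤ (n / 100 + 1 : ℕ) := by
    rw [div_le_iff₀ (by norm_num)]; exact_mod_cast (by omega)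
  have l2 : ((n / 100 + 1 : ℕ) : ℝ) ≤ n / 100 + 1 := by
    rw [Nat.cast_succ]; exact add_le_add_left Nat.cast_div_le 1
  have q1 : (400 : ℝ) ≤ n / log n := by rw [le_div_iff₀ (by linarith)]; linarith
  have b1 : n / lg n + 1 ≤ n / log n * (100 / 198) := by
    have a1 := le_lg (k := n) (by omega)
    have a2 : n / lg n ≤ n / (199 / 100 * log n) :=
      div_le_div_of_nonneg_left (by linarith) (by linarith) (by linarith)
    have e : n / (199 / 100 * log n) = n / log n * (100 / 199) := by field_simp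
    linarith
  have b0 : 0 < n / lg n + 1 := by
    have := four_le_lg (k := n) (by omega); positivity
  have q2 : n / log n ≤ 2 * ((u : ℝ) ^ 100 / log n) := by
    rw [← mul_div_assoc]; gcongr
  have q3 : (u : ℝ) ^ 100 / log n ≤ (u : ℝ) ^ 100 / 100 := by gcongr
  have q4 : 0 ≤ (u : ℝ) ^ 100 / log n := by positivity
  have hP : Par p τ (fun k => G (tri k)) (fun k => k / lg k) (n / 100 + 1) n (5 * (u : ℝ) ^ 99)
      (n / lg n + 1) (1 / (4 * log n)) (2 * (u : ℝ) ^ 67) u := by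
    refine ⟨hM, reg (by omega) (by omega) (by linarith) (le_trans ?_ l1), hu, le_rfl, by linarith,
      ?_, by positivity, le_rfl, ?_, ?_⟩
    · calc _ ≤ (6 * (u : ℝ) ^ 99) * (2 * (u / 10 ^ 4)) := by gcongr <;> linarith
        _ = 12 / 10 ^ 4 * (u : ℝ) ^ 100 := by ring
        _ ≤ _ := by linarith
    · have e : 8 * (1 / (4 * log n)) * (u : ℝ) ^ 100 = 2 * ((u : ℝ) ^ 100 / log n) := by
        field_simp; norm_num
      linarith
    · exact sum_nonneg fun l _ => one_div_nonneg.2 (log_natCast_nonneg l)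
    · have a1 : (n : ℝ) ^ 2 ≤ (2 * (u : ℝ) ^ 100) ^ 2 := by gcongr
      have a2 : (2 * (u : ℝ) ^ 100) ^ 2 = 4 * (u : ℝ) ^ 200 := by ring
      linarith [G_le (tri n), tri_le n]
  obtain ⟨W, w1, w2⟩ : ∃ W : ℕ, 64 / 100 * (n : ℝ) ≤ W * (100 * (u : ℝ) ^ 96) ∧
      W * (100 * (u : ℝ) ^ 96) ≤ 64 / 100 * n + 100 * (u : ℝ) ^ 96 := by
    have a0 : 0 < 100 * (u : ℝ) ^ 96 := by positivity
    refine ⟨⌈64 / 100 * (n : ℝ) / (100 * (u : ℝ) ^ 96)⌉₊, (div_le_iff₀ a0).1 (Nat.le_ceil _), ?_⟩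
    refine (mul_le_mul_of_nonneg_right (Nat.ceil_lt_add_one (by positivity)).le a0.le).trans_eq ?_
    rw [add_mul, div_mul_cancel₀ _ a0.ne', one_mul]
  have hK := geo (K := n / 100 + 1 + (W + 1) * (100 * u ^ 96)) hu h1 hL L1 L2 (by
    rw [Nat.cast_add]; push_cast at l2 ⊢; linarith)
  refine (hP.tail (W := W) (by omega) ?_ ?_ _).trans ?_
  · have a1 := G_low (x := 1) (y := tri (n / 100 + 1)) le_rfl
      (by have := le_tri (n / 100 + 1); omega)
    rw [G_one, sub_zero] at a1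
    refine b1.trans (le_trans ?_ a1)
    have a2 : (n : ℝ) * 2 + 1 ≤ tri (n / 100 + 1) := by
      rw [tri_cast]
      nlinarith [mul_le_mul l1 l1 (by positivity) (Nat.cast_nonneg _)]
    have a3 : (n : ℝ) * 2 / (2 * log n) ≤
        ((tri (n / 100 + 1) : ℝ) - (1 : ℕ)) / log (tri (n / 100 + 1)) :=
      div_le_div₀ (by push_cast; linarith) (by push_cast; linarith)
        (lt_of_lt_of_le four_pos (four_le_lg (by omega))) (lg_le (by omega) (by omega))
    have e : (n : ℝ) * 2 / (2 * log n) = n / log n := by field_simp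
    linarith
  · by_contra hc
    have F0 : ∀ k, 0 ≤ G (tri k) := fun k => hP.F0.trans (hP.R.mono (Nat.zero_le k))
    have a1 := le_fi (F := fun k => G (tri k)) (m := n)
      (sub_le_self _ (F0 (n / 100 + 1 + W * (100 * u ^ 96))))
    have a2 := hP.R.mono (not_le.1 hc).le
    have a3 := hP.R.mono (show n / 100 + 1 + W * (100 * u ^ 96) ≤
      n / 100 + 1 + (W + 1) * (100 * u ^ 96) by gcongr; omega)
    linarith
  · rw [two_mul]
    refine add_le_add (exp_le_exp.2 ?_) ?_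
    · have a1 : exp (-4) ≤ 1 / 50 := by
        have e : exp 4 = exp 1 ^ 4 := by rw [← exp_nat_mul]; norm_num
        rw [exp_neg, ← one_div]
        refine one_div_le_one_div_of_le (by norm_num) (e ▸ le_trans (by norm_num)
          (pow_le_pow_left₀ (show (0 : ℝ) ≤ 27 / 10 by norm_num)
            (by linarith [exp_one_gt_d9]) 4))
      have a2 : 119 / 100 * log n ≤ 94 * (u : ℝ) ^ 96 / (n / lg n + 1) * W := by
        rw [div_mul_eq_mul_div _ (n / lg n + 1), le_div_iff₀ b0]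
        calc _ ≤ 119 / 100 * log n * (n / log n * (100 / 198)) := by gcongr
          _ = 119 / 198 * n := by field_simp
          _ ≤ _ := by linarith
      rw [mul_assoc]
      nlinarith [mul_le_mul (show 49 / 50 ≤ 1 - exp (-4) by linarith) a2 (by linarith)
        (by linarith)]
    · have a1 : (W : ℝ) ≤ (u : ℝ) ^ 4 / 50 := by
        refine le_of_mul_le_mul_right (a := 100 * (u : ℝ) ^ 96) ?_ (by positivity)
        calc _ ≤ 2 * (u : ℝ) ^ 100 := by linarith
          _ = _ := by ring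
      have a2 : (u : ℝ) ^ 116 = exp (116 * log u) := by
        rw [show (116 : ℝ) = (116 : ℕ) by norm_num, exp_nat_mul, exp_log U0]
      calc _ ≤ (u : ℝ) ^ 4 / 50 * (288 / (u : ℝ) ^ 120) := by gcongr
        _ = 288 / 50 / (u : ℝ) ^ 116 := by field_simp
        _ ≤ _ := ?_
      rw [a2, div_le_iff₀ (exp_pos _), ← exp_add]
      linarith [add_one_le_exp (-(53 / 50 * log n) + 116 * log u)]

theorem ev_u : ∀ᶠ n : ℕ in Filter.atTop, ∃ u : ℕ, 10 ^ 4 ≤ u ∧ u ^ 100 ≤ n ∧ n ≤ 2 * u ^ 100 ∧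
    10 ^ 4 * log n ≤ u := by
  obtain ⟨c, hc⟩ := Filter.eventually_atTop.1
    (isLittleO_log_id_atTop.bound (c := 1 / 10 ^ 7) (by norm_num))
  refine (Filter.eventually_ge_atTop ((10 ^ 5 + ⌈c⌉₊) ^ 100)).mono fun n hn => ?_
  have a1 := (Nat.le_nthRoot_iff (by norm_num)).2 hn
  have a2 := Nat.pow_nthRoot_le_iff.2 (Or.inl (show 100 ≠ 0 by norm_num) : 100 ≠ 0 ∨ n ≠ 0)
  have a3 := Nat.lt_pow_nthRoot_add_one (show 100 ≠ 0 by norm_num) n
  generalize Nat.nthRoot 100 n = u at a1 a2 a3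
  have U : (10 : ℝ) ^ 5 + ⌈c⌉₊ ≤ u := by exact_mod_cast a1
  have c0 : (0 : ℝ) ≤ ⌈c⌉₊ := Nat.cast_nonneg _
  have n0 : 0 < n := lt_of_lt_of_le (pow_pos (Nat.add_pos_left (by norm_num) _) _) hn
  have b1 : (n : ℝ) ≤ ((u + 1 : ℕ) : ℝ) ^ 100 := by rw [← Nat.cast_pow]; exact Nat.cast_le.2 a3.le
  clear a3 hn
  have a4 : (n : ℝ) ≤ 2 * (u : ℝ) ^ 100 := by
    refine b1.trans ?_
    clear b1
    have b2 : ((u + 1 : ℕ) : ℝ) ≤ 10001 / 10000 * u := by push_cast; linarith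
    refine (pow_le_pow_left₀ (Nat.cast_nonneg _) b2 100).trans ?_
    rw [mul_pow]
    exact mul_le_mul_of_nonneg_right (by norm_num) (pow_nonneg (Nat.cast_nonneg u) 100)
  clear b1
  refine ⟨u, by omega, a2, by exact_mod_cast a4, ?_⟩
  have a5 := hc u (by linarith [Nat.le_ceil c])
  rw [id, norm_eq_abs, norm_eq_abs, Nat.abs_cast] at a5
  have a6 := log_le_log (Nat.cast_pos.2 n0) a4
  rw [log_mul two_ne_zero (pow_pos (by linarith) _).ne', log_pow] at a6
  push_cast at a6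
  linarith [log_two_lt_d9, le_abs_self (log u)]

end Pool.Agent.P.MP_e3a3b0_nt
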