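import Pool.Agent.P.MP_e3a3b0_nt.Fin

/-! The law of a sum of independent coins is flat and Lipschitz. -/

namespace Pool.Agent.P.MP_e3a3b0_nt

open Finset Real

variable {ι : Type} [Fintype ι] [DecidableEq ι] {p : ι → ℝ}

/-- the characteristic function -/
noncomputable def ph (p : ι → ℝ) (A : Finset ι) (θ : ℝ) : ℂ :=
  ∏ i ∈ A, (p i * Complex.exp (Complex.I * θ) + (1 - p i))

theorem char_eq (p : ι → ℝ) (A : Finset ι) (θ : ℝ) :
    ∑ ω, (wt p ω : ℂ) * Complex.exp (Complex.I * θ * sm A ω) = ph p A θ := by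
  have h := sum_prod_coord (R := ℂ) fun i b => ((if b then p i else 1 - p i : ℝ) : ℂ) *
    (if i ∈ A then Complex.exp (Complex.I * θ * ((if b then 1 else 0 : ℤ) : ℂ)) else 1)
  simp only [prod_mul_distrib, prod_ite_mem, univ_inter] at h
  have e : ∀ ω : ι → Bool, (wt p ω : ℂ) * Complex.exp (Complex.I * θ * sm A ω) =
      (∏ i, ((if ω i then p i else 1 - p i : ℝ) : ℂ)) *
        ∏ i ∈ A, Complex.exp (Complex.I * θ * ((if ω i then 1 else 0 : ℤ) : ℂ)) := fun ω => by
    rw [wt, Complex.ofReal_prod, sm, Int.cast_sum, mul_sum, Complex.exp_sum]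
  simp only [e]
  rw [h, ph, ← univ_inter A, ← prod_ite_mem]
  refine prod_congr rfl fun i _ => ?_
  by_cases hi : i ∈ A <;> simp [hi]

theorem int_char (z : ℤ) :
    ∫ θ in (-π)..π, Complex.exp (Complex.I * z * θ) = 2 * π * (ind (z = 0) : ℝ) := by
  by_cases h : z = 0
  · rw [ind_pos h, h]; simp; ring
  · have hz : (z : ℂ) ≠ 0 := Int.cast_ne_zero.2 h
    rw [ind_neg h, integral_exp_mul_complex (mul_ne_zero Complex.I_ne_zero hz)]
    have : Complex.exp (Complex.I * z * π) = Complex.exp (Complex.I * z * (-π : ℝ)) := by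
      rw [← mul_one (Complex.exp (Complex.I * z * (-π : ℝ))), ← Complex.exp_int_mul_two_pi_mul_I z,
        ← Complex.exp_add]
      congr 1; push_cast; ring
    rw [this]; simp

theorem inversion (p : ι → ℝ) (A : Finset ι) (u : ℤ) :
    ∫ θ in (-π)..π, Complex.exp (-(Complex.I * θ * u)) * ph p A θ =
      2 * π * (Pr p (fun ω => sm A ω = u) : ℝ) := by
  have e : ∀ θ : ℝ, Complex.exp (-(Complex.I * θ * u)) * ph p A θ =
      ∑ ω, (wt p ω : ℂ) * Complex.exp (Complex.I * (sm A ω - u : ℤ) * θ) := fun θ => by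
    rw [← char_eq, mul_sum]
    refine sum_congr rfl fun ω _ => ?_
    rw [mul_left_comm, ← Complex.exp_add]
    congr 2; push_cast; ring
  simp only [e]
  rw [intervalIntegral.integral_finsetSum fun ω _ => Continuous.intervalIntegrable (by fun_prop) _ _]
  simp only [intervalIntegral.integral_const_mul, int_char, Pr, Ex, sub_eq_zero]
  push_cast
  rw [mul_sum]
  exact sum_congr rfl fun ω _ => by ring

omit [Fintype ι] [DecidableEq ι] in
theorem norm_ph (hp : Pb p) {A : Finset ι} (hA : ∀ i ∈ A, p i ≤ 1 / 2) {θ : ℝ} (hθ : |θ| ≤ π) :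
    ‖ph p A θ‖ ≤ exp (-((∑ i ∈ A, p i) / 10) * θ ^ 2) := by
  have e : -((∑ i ∈ A, p i) / 10) * θ ^ 2 = ∑ i ∈ A, -(p i / 10 * θ ^ 2) := by
    rw [sum_neg_distrib, ← sum_mul, ← sum_div, neg_mul]
  rw [ph, norm_prod, e, exp_sum]
  refine prod_le_prod (fun _ _ => norm_nonneg _) fun i hi => ?_
  refine (pow_le_pow_iff_left₀ (norm_nonneg _) (exp_pos _).le two_ne_zero).1 ?_
  rw [← Complex.normSq_eq_norm_sq, mul_comm Complex.I, Complex.normSq_apply, ← exp_nat_mul]
  simp only [Complex.add_re, Complex.mul_re, Complex.ofReal_re, Complex.ofReal_im,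
    Complex.exp_ofReal_mul_I_re, Complex.exp_ofReal_mul_I_im, Complex.sub_re, Complex.one_re,
    Complex.add_im, Complex.mul_im, Complex.sub_im, Complex.one_im, zero_mul, sub_zero, add_zero,
    sub_self]
  refine le_trans ?_ (add_one_le_exp _)
  have h1 := cos_le_one_sub_mul_cos_sq hθ
  have h2 : 1 / 5 ≤ 2 / π ^ 2 := by
    rw [div_le_div_iff₀ (by norm_num) (by positivity)]
    nlinarith [pi_lt_d2, pi_pos]
  have h3 : θ ^ 2 / 5 ≤ 1 - cos θ := by nlinarith [sq_nonneg θ]
  have h4 := sin_sq_add_cos_sq θ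
  have h5 := (hp i).1
  have h6 := hA i hi
  have h7 : p i * (θ ^ 2 / 5) ≤ p i * (1 - cos θ) := mul_le_mul_of_nonneg_left h3 h5
  have h8 : 0 ≤ p i * (1 - cos θ) * (1 - 2 * p i) :=
    mul_nonneg (mul_nonneg h5 (by linarith [cos_le_one θ])) (by linarith)
  have h9 : p i * sin θ * (p i * sin θ) = p i ^ 2 * (1 - cos θ ^ 2) := by rw [← h4]; ring
  push_cast
  rw [h9]
  nlinarith

theorem gauss_le {b : ℝ} (hb : 0 < b) : ∫ θ in (-π)..π, exp (-b * θ ^ 2) ≤ √(π / b) := by
  rw [← integral_gaussian, intervalIntegral.integral_of_le (by linarith [pi_pos])]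
  exact MeasureTheory.setIntegral_le_integral (integrable_exp_neg_mul_sq hb)
    (Filter.Eventually.of_forall fun x => (exp_pos _).le)

theorem pmf_le (hp : Pb p) {A : Finset ι} (hA : ∀ i ∈ A, p i ≤ 1 / 2) {v : ℝ} (hv : 0 < v)
    (hv' : v ≤ ∑ i ∈ A, p i) (u : ℤ) : Pr p (fun ω => sm A ω = u) ≤ 1 / √v := by
  have h1 := intervalIntegral.norm_integral_le_of_norm_le (a := -π) (b := π) (μ := MeasureTheory.volume)
    (f := fun θ : ℝ => Complex.exp (-(Complex.I * θ * u)) * ph p A θ)
    (g := fun θ => exp (-(v / 10) * θ ^ 2)) (by linarith [pi_pos])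
    (Filter.Eventually.of_forall fun θ hθ => by
      have e : -(Complex.I * θ * u) = ((-(θ * u) : ℝ) : ℂ) * Complex.I := by push_cast; ring
      rw [norm_mul, e, Complex.norm_exp_ofReal_mul_I, one_mul]
      refine (norm_ph hp hA (abs_le.2 ⟨hθ.1.le, hθ.2⟩)).trans (exp_le_exp.2 ?_)
      nlinarith [sq_nonneg θ]) (Continuous.intervalIntegrable (by fun_prop) _ _)
  have h2 := h1.trans (gauss_le (by positivity))
  rw [inversion, ← Complex.ofReal_ofNat, ← Complex.ofReal_mul, ← Complex.ofReal_mul,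
    Complex.norm_real, Real.norm_of_nonneg (by have := Pr_nonneg hp fun ω => sm A ω = u; positivity)]
    at h2
  have h3 : √(π / (v / 10)) ≤ 2 * π * (1 / √v) := by
    refine sqrt_le_iff.2 ⟨by positivity, ?_⟩
    rw [mul_pow, div_pow, sq_sqrt hv.le, div_le_iff₀ (by positivity)]
    field_simp
    nlinarith [pi_gt_three]
  exact le_of_mul_le_mul_left (h2.trans h3) (by positivity)

theorem pmf_lip1 (hp : Pb p) {A : Finset ι} (hA : ∀ i ∈ A, p i ≤ 1 / 2) {v : ℝ} (hv : 0 < v)
    (hv' : v ≤ ∑ i ∈ A, p i) (u : ℤ) :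
    |Pr p (fun ω => sm A ω = u + 1) - Pr p (fun ω => sm A ω = u)| ≤ 4 / v := by
  have hb : 0 < √(v / 10) := by positivity
  have h1 := intervalIntegral.norm_integral_le_of_norm_le (a := -π) (b := π) (μ := MeasureTheory.volume)
    (f := fun θ : ℝ => Complex.exp (-(Complex.I * θ * (u + 1 : ℤ))) * ph p A θ -
      Complex.exp (-(Complex.I * θ * u)) * ph p A θ)
    (g := fun θ => (√(v / 10))⁻¹ * exp (-(v / 20) * θ ^ 2)) (by linarith [pi_pos])
    (Filter.Eventually.of_forall fun θ hθ => by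
      have e : Complex.exp (-(Complex.I * θ * (u + 1 : ℤ))) * ph p A θ -
          Complex.exp (-(Complex.I * θ * u)) * ph p A θ =
          Complex.exp (((-(θ * u) : ℝ) : ℂ) * Complex.I) *
            ((Complex.exp (Complex.I * (-θ : ℝ)) - 1) * ph p A θ) := by
        rw [sub_mul, mul_sub, ← mul_assoc, ← Complex.exp_add, one_mul]
        congr 3 <;> push_cast <;> ring
      rw [e, norm_mul, Complex.norm_exp_ofReal_mul_I, one_mul, norm_mul]
      have a1 : ‖ph p A θ‖ ≤ exp (-(v / 20) * θ ^ 2) * exp (-(v / 20) * θ ^ 2) := by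
        rw [← exp_add]
        refine (norm_ph hp hA (abs_le.2 ⟨hθ.1.le, hθ.2⟩)).trans (exp_le_exp.2 ?_)
        nlinarith [sq_nonneg θ]
      have a2 := norm_exp_I_mul_ofReal_sub_one_le (x := -θ)
      rw [norm_neg, Real.norm_eq_abs] at a2
      have a3 : |θ| * exp (-(v / 20) * θ ^ 2) ≤ (√(v / 10))⁻¹ := by
        rw [neg_mul, exp_neg, ← div_eq_mul_inv, ← one_div, div_le_div_iff₀ (exp_pos _) hb, one_mul]
        refine le_trans ?_ (add_one_le_exp _)
        have := sq_sqrt (show 0 ≤ v / 10 by positivity)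
        nlinarith [sq_nonneg (|θ| * √(v / 10) - 1), sq_abs θ]
      refine (mul_le_mul a2 a1 (norm_nonneg _) (abs_nonneg _)).trans ?_
      rw [← mul_assoc]
      exact mul_le_mul_of_nonneg_right a3 (exp_pos _).le)
    (Continuous.intervalIntegrable (by fun_prop) _ _)
  have hc : ∀ z : ℤ, IntervalIntegrable
      (fun θ : ℝ => Complex.exp (-(Complex.I * θ * z)) * ph p A θ) MeasureTheory.volume (-π) π :=
    fun z => Continuous.intervalIntegrable (by unfold ph; fun_prop) _ _
  rw [intervalIntegral.integral_sub (hc _) (hc _), inversion, inversion, ← mul_sub,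
    intervalIntegral.integral_const_mul, ← Complex.ofReal_sub, ← Complex.ofReal_ofNat,
    ← Complex.ofReal_mul, ← Complex.ofReal_mul, Complex.norm_real, Real.norm_eq_abs, abs_mul,
    abs_of_pos (by positivity)] at h1
  have h2 := h1.trans (mul_le_mul_of_nonneg_left (gauss_le (by positivity)) (by positivity))
  have h3 : √(π / (v / 20)) ≤ √(v / 10) * (2 * π * (4 / v)) := by
    refine sqrt_le_iff.2 ⟨by positivity, ?_⟩
    rw [mul_pow, sq_sqrt (by positivity), div_le_iff₀ (by positivity)]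
    field_simp
    nlinarith [pi_gt_d2]
  rw [← inv_mul_le_iff₀ hb] at h3
  exact le_of_mul_le_mul_left (h2.trans h3) (by positivity)

theorem pmf_lip (hp : Pb p) {A : Finset ι} (hA : ∀ i ∈ A, p i ≤ 1 / 2) {v : ℝ} (hv : 0 < v)
    (hv' : v ≤ ∑ i ∈ A, p i) (u u' : ℤ) :
    Pr p (fun ω => sm A ω = u') - 4 / v * |(u : ℝ) - u'| ≤ Pr p (fun ω => sm A ω = u) := by
  have key : ∀ (k : ℕ) (z : ℤ),
      |Pr p (fun ω => sm A ω = z + k) - Pr p (fun ω => sm A ω = z)| ≤ 4 / v * k := by
    intro k z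
    induction k with
    | zero => simp
    | succ k ih =>
      have := pmf_lip1 hp hA hv hv' (z + k)
      rw [Nat.cast_succ, Nat.cast_succ, ← add_assoc, mul_add, mul_one]
      rw [abs_le] at *
      constructor <;> linarith [ih.1, ih.2, this.1, this.2]
  rcases le_total u u' with h | h
  · obtain ⟨k, rfl⟩ := Int.le.dest h
    have := abs_le.1 (key k u)
    rw [Int.cast_add, Int.cast_natCast, sub_add_cancel_left, abs_neg, Nat.abs_cast]
    linarith [this.2]
  · obtain ⟨k, rfl⟩ := Int.le.dest h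
    have := abs_le.1 (key k u')
    rw [Int.cast_add, Int.cast_natCast, add_sub_cancel_left, Nat.abs_cast]
    linarith [this.1]

end Pool.Agent.P.MP_e3a3b0_nt
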