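import Mathlib

/-! Lattice points near a convex curve, by rational approximation of the slope. -/

namespace Pool.Agent.P.MP_e3a3b0_nt

open Finset

open Classical in
theorem rot {ρ x η : ℝ} {Q : ℕ} {f : ℚ} (h1 : |ρ - f| ≤ 1 / ((Q + 1) * f.den)) (hQ : 0 < Q)
    (hη : η ≤ 1) : f.den * (η - 2 / Q) - 1 ≤
      ((range f.den).filter fun r : ℕ => ∃ j : ℤ, x ≤ j - r * ρ ∧ j - r * ρ < x + η).card := by
  have hq : (0 : ℝ) < f.den := by exact_mod_cast f.den_pos
  have hq' : (0 : ℤ) < f.den := by exact_mod_cast f.den_pos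
  have hQ' : (0 : ℝ) < Q := by exact_mod_cast hQ
  have h2 : ∀ v : ℤ, ∃ r : ℕ, r < f.den ∧ ∃ j : ℤ, j * f.den - r * f.num = v := fun v => by
    obtain ⟨s, t, e⟩ : IsCoprime f.num (f.den : ℤ) := Int.isCoprime_iff_gcd_eq_one.2 f.reduced
    have a1 := Int.emod_nonneg (-s * v) hq'.ne'
    have a2 := Int.emod_lt_of_pos (-s * v) hq'
    refine ⟨(-s * v % f.den).toNat, by omega, t * v - f.num * (-s * v / f.den), ?_⟩
    rw [Int.toNat_of_nonneg a1, Int.emod_def]
    linear_combination v * e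
  choose r hr j hj using h2
  have h3 : ((Ico ⌈f.den * (x + 1 / Q)⌉ ⌈f.den * (x + η - 1 / Q)⌉).card : ℝ) ≤
      ((range f.den).filter fun r : ℕ => ∃ j : ℤ, x ≤ j - r * ρ ∧ j - r * ρ < x + η).card := by
    have hm : ∀ v ∈ Ico ⌈f.den * (x + 1 / Q)⌉ ⌈f.den * (x + η - 1 / Q)⌉,
        f.den * (x + 1 / Q) ≤ v ∧ v < f.den * (x + η - 1 / Q) := fun v hv =>
      ⟨Int.ceil_le.1 (mem_Ico.1 hv).1, Int.lt_ceil.1 (mem_Ico.1 hv).2⟩
    refine Nat.cast_le.2 (card_le_card_of_injOn r (fun v hv => ?_) fun v hv v' hv' e => ?_)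
    · refine mem_coe.2 (mem_filter.2 ⟨mem_range.2 (hr v), j v, ?_⟩)
      have a1 : (j v : ℝ) * f.den - r v * f.num = v := by exact_mod_cast hj v
      have a2 : (f.num : ℝ) = f * f.den := by rw [Rat.cast_def]; field_simp
      have a3 : (r v : ℝ) ≤ f.den := by exact_mod_cast (hr v).le
      have a4 : |r v * (ρ - f)| ≤ 1 / Q := by
        rw [abs_mul, Nat.abs_cast]
        refine (mul_le_mul a3 h1 (abs_nonneg _) hq.le).trans ?_
        rw [mul_one_div, div_le_div_iff₀ (by positivity) hQ']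
        nlinarith
      obtain ⟨b1, b2⟩ := hm v hv
      have a5 : (v : ℝ) = f.den * (j v - r v * f) := by rw [← a1, a2]; ring
      rw [a5] at b1 b2
      have c1 := le_of_mul_le_mul_left b1 hq
      have c2 := lt_of_mul_lt_mul_left b2 hq.le
      rw [abs_le] at a4
      constructor <;> linarith [a4.1, a4.2]
    · obtain ⟨b1, b2⟩ := hm v hv
      obtain ⟨b3, b4⟩ := hm v' hv'
      have a1 : v - v' = (j v - j v') * f.den := by
        have c1 := hj v
        rw [e] at c1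
        linear_combination hj v' - c1
      have a2 : |v - v'| < f.den := by
        have : |(v : ℝ) - v'| < f.den := by
          have := mul_pos hq (one_div_pos.2 hQ')
          have := mul_le_mul_of_nonneg_left hη hq.le
          rw [abs_lt]; constructor <;> nlinarith
        exact_mod_cast this
      exact sub_eq_zero.1 (Int.eq_zero_of_abs_lt_dvd ⟨_, a1.trans (mul_comm _ _)⟩ a2)
  refine le_trans ?_ h3
  rw [Int.card_Ico]
  have a1 : ((⌈f.den * (x + η - 1 / Q)⌉ - ⌈f.den * (x + 1 / Q)⌉ : ℤ) : ℝ) ≤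
      ((⌈f.den * (x + η - 1 / Q)⌉ - ⌈f.den * (x + 1 / Q)⌉).toNat : ℤ) :=
    Int.cast_le.2 (Int.self_le_toNat _)
  rw [Int.cast_natCast, Int.cast_sub] at a1
  have a2 := Int.le_ceil (f.den * (x + η - 1 / Q))
  have a3 := Int.ceil_lt_add_one (f.den * (x + 1 / Q))
  have : (2 : ℝ) / Q = 1 / Q + 1 / Q := by ring
  rw [this]
  nlinarith

theorem greedy {P B : ℕ → Prop} [DecidablePred P] [DecidablePred B] {η : ℝ} {Q K0 K1 : ℕ} (h0 : 0 ≤ η)
    (h : ∀ k, K0 ≤ k → k < K1 → B k ∨ ∃ q : ℕ, 0 < q ∧ q ≤ Q ∧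
      η * q ≤ ((range q).filter fun r => P (k + r)).card) (s : ℕ) :
    ∀ k, K0 ≤ k → k + s = K1 →
      η * (s - Q - ((Ico k K1).filter B).card) ≤ ((Ico k K1).filter P).card := by
  induction s using Nat.strong_induction_on with
  | _ s ih =>
    intro k h1 h2
    by_cases hs : s ≤ Q
    · refine le_trans (mul_nonpos_of_nonneg_of_nonpos h0 ?_) (Nat.cast_nonneg _)
      have : (s : ℝ) ≤ Q := by exact_mod_cast hs
      linarith [(Nat.cast_nonneg ((Ico k K1).filter B).card : (0 : ℝ) ≤ _)]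
    rcases h k h1 (by omega) with hB | ⟨q, a1, a2, a3⟩
    · obtain ⟨s, rfl⟩ : ∃ s', s = s' + 1 := ⟨s - 1, by omega⟩
      have a1 := ih s (by omega) (k + 1) (by omega) (by omega)
      have a2 : ((Ico k K1).filter B).card = ((Ico (k + 1) K1).filter B).card + 1 := by
        rw [← insert_Ico_add_one_left_eq_Ico (by omega : k < K1), filter_insert, if_pos hB,
          card_insert_of_notMem (by simp)]
      have a3 : (((Ico (k + 1) K1).filter P).card : ℝ) ≤ ((Ico k K1).filter P).card :=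
        Nat.cast_le.2 (card_le_card (filter_subset_filter _ (Ico_subset_Ico_left (by omega))))
      rw [a2]
      push_cast
      linarith
    · obtain ⟨s, rfl⟩ : ∃ s', s = s' + q := ⟨s - q, by omega⟩
      have b1 := ih s (by omega) (k + q) (by omega) (by omega)
      have b2 : (((Ico (k + q) K1).filter B).card : ℝ) ≤ ((Ico k K1).filter B).card :=
        Nat.cast_le.2 (card_le_card (filter_subset_filter _ (Ico_subset_Ico_left (by omega))))
      have b3 : ((range q).filter fun r => P (k + r)).card + ((Ico (k + q) K1).filter P).card ≤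
          ((Ico k K1).filter P).card := by
        rw [← card_image_of_injective _ (add_right_injective k), ← card_union_of_disjoint]
        · refine card_le_card (union_subset ?_
            (filter_subset_filter _ (Ico_subset_Ico_left (by omega))))
          intro x hx
          obtain ⟨r, hr, rfl⟩ := mem_image.1 hx
          rw [mem_filter, mem_range] at hr
          exact mem_filter.2 ⟨mem_Ico.2 ⟨by omega, by omega⟩, hr.2⟩
        · refine disjoint_left.2 fun x hx hx' => ?_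
          obtain ⟨r, hr, rfl⟩ := mem_image.1 hx
          rw [mem_filter, mem_range] at hr
          have := (mem_Ico.1 (mem_filter.1 hx').1).1
          omega
      have b4 : (((range q).filter fun r => P (k + r)).card : ℝ) +
        ((Ico (k + q) K1).filter P).card ≤ ((Ico k K1).filter P).card := by exact_mod_cast b3
      have b5 := mul_le_mul_of_nonneg_left b2 h0
      push_cast
      nlinarith

open Classical in
theorem few {ρ : ℕ → ℝ} {K0 K1 : ℕ} {δ g : ℝ} (hδ : 0 ≤ δ) (hg : 0 < g)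
    (h : ∀ k r, K0 ≤ k → k + r < K1 → g * r ≤ ρ (k + r) - ρ k) (y : ℝ) :
    (((Ico K0 K1).filter fun k => |ρ k - y| ≤ δ).card : ℝ) ≤ 1 + 2 * δ / g := by
  rcases ((Ico K0 K1).filter fun k => |ρ k - y| ≤ δ).eq_empty_or_nonempty with e | e
  · rw [e, card_empty, Nat.cast_zero]; positivity
  have a1 := mem_filter.1 (min'_mem _ e)
  have a2 : ((Ico K0 K1).filter fun k => |ρ k - y| ≤ δ) ⊆
      Icc (min' _ e) (min' _ e + ⌊2 * δ / g⌋₊) := fun k hk => by
    obtain ⟨r, hr⟩ := Nat.exists_eq_add_of_le (min'_le _ k hk)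
    rw [mem_filter, mem_Ico] at hk
    have b1 := h _ r (mem_Ico.1 a1.1).1 (hr ▸ hk.1.2)
    rw [← hr] at b1
    have b2 : r ≤ ⌊2 * δ / g⌋₊ := Nat.le_floor (by
      rw [le_div_iff₀ hg]
      linarith [(abs_le.1 hk.2).2, (abs_le.1 a1.2).1])
    exact mem_Icc.2 ⟨by omega, by omega⟩
  have a3 := card_le_card a2
  rw [Nat.card_Icc, add_right_comm, add_assoc, Nat.add_sub_cancel_left] at a3
  refine (Nat.cast_le.2 a3).trans ?_
  push_cast
  linarith [Nat.floor_le (show 0 ≤ 2 * δ / g by positivity)]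

/-- a convex sequence with slopes `σ` -/
structure Reg (F σ : ℕ → ℝ) (lo n : ℕ) (a b κ : ℝ) : Prop where
  mono : Monotone F
  step : ∀ k, lo ≤ k → k ≤ n → |F (k + 1) - F k - σ k| ≤ 1
  low : ∀ k, lo ≤ k → k ≤ n → a + 1 ≤ σ k
  up : ∀ k, lo ≤ k → k ≤ n → σ k + 1 ≤ b
  grow : ∀ k r, lo ≤ k → k + r ≤ n → κ * r ≤ σ (k + r) - σ k ∧ σ (k + r) - σ k ≤ r
  one : 1 ≤ a
  pos : 0 < κ

variable {F σ : ℕ → ℝ} {lo n : ℕ} {a b κ : ℝ}

theorem Reg.lin (h : Reg F σ lo n a b κ) {k : ℕ} (hk : lo ≤ k) (r : ℕ) (hr : k + r ≤ n) :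
    |F (k + r) - F k - r * σ k| ≤ r ^ 2 + r ∧ r * a ≤ F (k + r) - F k ∧
      F (k + r) - F k ≤ r * b := by
  induction r with
  | zero => simp
  | succ r ih =>
    obtain ⟨a1, a2, a3⟩ := ih (by omega)
    have b1 := abs_le.1 (h.step (k + r) (by omega) (by omega))
    have b2 := h.grow k r hk (by omega)
    have b3 := h.low (k + r) (by omega) (by omega)
    have b4 := h.up (k + r) (by omega) (by omega)
    have b5 : 0 ≤ κ * r := mul_nonneg h.pos.le (Nat.cast_nonneg r)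
    have b6 : (0 : ℝ) ≤ r := Nat.cast_nonneg r
    rw [abs_le] at a1 ⊢
    rw [← add_assoc]
    push_cast
    refine ⟨⟨?_, ?_⟩, ?_, ?_⟩ <;> nlinarith [a1.1, a1.2, b1.1, b1.2, b2.1, b2.2]

theorem Reg.smono (h : Reg F σ lo n a b κ) {k m : ℕ} (hk : lo ≤ k) (e : k ≤ m) (hm : m ≤ n) :
    σ k ≤ σ m := by
  obtain ⟨r, rfl⟩ := Nat.exists_eq_add_of_le e
  linarith [(h.grow k r hk hm).1, mul_nonneg h.pos.le (Nat.cast_nonneg r : (0 : ℝ) ≤ r)]

/-- the first index at which `F` reaches `x` -/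
noncomputable def fi (F : ℕ → ℝ) (x : ℝ) : ℕ := sInf {m | x ≤ F m}

theorem fi_le {x : ℝ} {m : ℕ} (h : x ≤ F m) : fi F x ≤ m := Nat.sInf_le h

theorem le_fi {x : ℝ} {m : ℕ} (h : x ≤ F m) : x ≤ F (fi F x) :=
  Nat.sInf_mem (s := {m | x ≤ F m}) ⟨m, h⟩

theorem lt_fi {x : ℝ} {m : ℕ} (h : m < fi F x) : F m < x :=
  not_le.1 (Nat.notMem_of_lt_sInf (s := {m | x ≤ F m}) h)

theorem fi_mono {x y : ℝ} {m : ℕ} (e : x ≤ y) (h : y ≤ F m) : fi F x ≤ fi F y :=
  fi_le (e.trans (le_fi h))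

open Classical in
theorem Reg.period (h : Reg F σ lo n a b κ) {c γ x l : ℝ} {k Q : ℕ} (hk : lo ≤ k)
    (h1 : c - F k + γ ≤ F n) (h2 : k + Q + 4 ≤ fi F (c - F k + γ)) (h3 : -γ ≤ x) (h4 : x + l ≤ γ)
    (h5 : 2 * γ ≤ a) {r : ℕ} (hr : r ≤ Q) {j : ℤ}
    (b1 : (x + 4 * (Q + 4) ^ 2 - (c - F k - F (fi F (c - F k + γ)))) / σ (fi F (c - F k + γ)) ≤
      j - r * (σ k / σ (fi F (c - F k + γ))))
    (b2 : j - r * (σ k / σ (fi F (c - F k + γ))) <
      (x + 4 * (Q + 4) ^ 2 - (c - F k - F (fi F (c - F k + γ)))) / σ (fi F (c - F k + γ)) +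
        (l - 8 * (Q + 4) ^ 2) / σ (fi F (c - F k + γ))) :
    ∃ m, x ≤ c - F (k + r) - F m ∧ c - F (k + r) - F m < x + l := by
  have a1 := fi_le h1
  have a2 := le_fi h1
  obtain ⟨m, hm⟩ : ∃ m, fi F (c - F k + γ) = m + 1 := ⟨fi F (c - F k + γ) - 1, by omega⟩
  have a3 := lt_fi (F := F) (x := c - F k + γ) (m := m) (by omega)
  rw [hm] at a1 a2 h2 b1 b2
  have a4 := (abs_le.1 (h.step m (by omega) (by omega))).2
  have a5 := h.smono (k := m) (m := m + 1) (by omega) (by omega) a1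
  have a6 := h.low (m + 1) (by omega) a1
  have a7 := h.smono hk (by omega : k ≤ m + 1) a1
  have a8 := h.low k hk (by omega)
  have a9 := h.one
  have hβ : 0 < σ (m + 1) := by linarith
  have e : (j : ℝ) - r * (σ k / σ (m + 1)) = (j * σ (m + 1) - r * σ k) / σ (m + 1) := by
    field_simp
  rw [e, div_le_div_iff_of_pos_right hβ] at b1
  rw [e, ← add_div, div_lt_div_iff_of_pos_right hβ] at b2
  have hr0 : (0 : ℝ) ≤ r := Nat.cast_nonneg r
  have hQ0 : (0 : ℝ) ≤ Q := Nat.cast_nonneg Q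
  have hrQ : (r : ℝ) ≤ Q := by exact_mod_cast hr
  have c1 : 0 ≤ j := by
    have : (0 : ℝ) ≤ j * σ (m + 1) := by nlinarith
    exact_mod_cast nonneg_of_mul_nonneg_left this hβ
  lift j to ℕ using c1
  rw [Int.cast_natCast] at b1 b2
  have c2 : (j : ℝ) ≤ Q + 3 := by
    refine le_of_mul_le_mul_right ?_ hβ
    have : r * σ k ≤ Q * σ (m + 1) := mul_le_mul hrQ a7 (by linarith) hQ0
    nlinarith
  have c3 : j ≤ Q + 3 := by exact_mod_cast c2
  obtain ⟨m', hm'⟩ : ∃ m', m + 1 = m' + j := ⟨m + 1 - j, by omega⟩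
  have d1 := abs_le.1 (h.lin hk r (by omega)).1
  have d2 := abs_le.1 (h.lin (k := m') (by omega) j (by omega)).1
  have d3 := (h.grow m' j (by omega) (by omega)).2
  have d4 := h.smono (k := m') (m := m' + j) (by omega) (by omega) (by omega)
  rw [← hm'] at d2 d3 d4
  have hj0 : (0 : ℝ) ≤ j := Nat.cast_nonneg j
  have d5 := mul_le_mul_of_nonneg_left d3 hj0
  have d6 := mul_le_mul_of_nonneg_left d4 hj0
  have d7 : (r : ℝ) ^ 2 ≤ Q ^ 2 := by gcongr
  have d8 : (j : ℝ) ^ 2 ≤ (Q + 3) ^ 2 := by gcongr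
  refine ⟨m', ?_, ?_⟩ <;> nlinarith [d1.1, d1.2, d2.1, d2.2]

open Classical in
theorem Reg.count (h : Reg F σ lo n a b κ) {c γ x l η : ℝ} {k1 s Q q0 : ℕ} (hk : lo ≤ k1)
    (h1 : c - F k1 + γ ≤ F n) (h2 : ∀ k, k1 ≤ k → k < k1 + s → k + Q + 4 ≤ fi F (c - F k + γ))
    (h3 : -γ ≤ x)
    (h4 : x + l ≤ γ) (h5 : 2 * γ ≤ a) (hQ : 0 < Q) (hq : 0 < q0) (hs : 0 < s) (h0 : 0 ≤ η)
    (h6 : η ≤ (l - 8 * (Q + 4) ^ 2) / b - 2 / Q - 1 / q0) :
    η * (s - Q - q0 ^ 2 * (1 + 2 * b / (κ * Q))) ≤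
      ((Ico k1 (k1 + s)).filter fun k => ∃ m, x ≤ c - F k - F m ∧ c - F k - F m < x + l).card := by
  have hQ' : (0 : ℝ) < Q := by exact_mod_cast hQ
  have hq' : (0 : ℝ) < q0 := by exact_mod_cast hq
  have a0 := h.one
  have hκ := h.pos
  have a1 : ∀ k, k1 ≤ k → c - F k + γ ≤ F n := fun k e => by linarith [h.mono e]
  let ρ : ℕ → ℝ := fun k => σ k / σ (fi F (c - F k + γ))
  have a2 : ∀ k, k1 ≤ k → k < k1 + s → a + 1 ≤ σ k ∧ σ k ≤ σ (fi F (c - F k + γ)) ∧
      σ (fi F (c - F k + γ)) + 1 ≤ b := fun k e e' => by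
    have := h2 k e e'
    have := fi_le (a1 k e)
    exact ⟨h.low k (by omega) (by omega), h.smono (by omega) (by omega) (by omega),
      h.up _ (by omega) (by omega)⟩
  have hb : 0 < b := by obtain ⟨x1, x2, x3⟩ := a2 k1 le_rfl (by omega); linarith
  have hl : 0 ≤ l - 8 * (Q + 4) ^ 2 := by
    refine le_of_mul_le_mul_right ?_ (inv_pos.2 hb)
    rw [zero_mul, ← div_eq_mul_inv]
    linarith [div_pos two_pos hQ', one_div_pos.2 hq']
  have a3 := greedy (P := fun k => ∃ m, x ≤ c - F k - F m ∧ c - F k - F m < x + l)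
    (B := fun k => ∃ y ∈ range q0 ×ˢ range q0, |ρ k - y.1 / y.2| ≤ 1 / Q) (Q := Q) (K0 := k1)
    (K1 := k1 + s) h0 (fun k e e' => ?_) s k1 le_rfl rfl
  · refine le_trans (mul_le_mul_of_nonneg_left (sub_le_sub_left ?_ _) h0) a3
    have b1 : ((Ico k1 (k1 + s)).filter fun k =>
        ∃ y ∈ range q0 ×ˢ range q0, |ρ k - y.1 / y.2| ≤ 1 / Q) ⊆ (range q0 ×ˢ range q0).biUnion
        fun y => (Ico k1 (k1 + s)).filter fun k => |ρ k - y.1 / y.2| ≤ 1 / Q := fun k hk => by
      obtain ⟨e, y, e1, e2⟩ := mem_filter.1 hk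
      exact mem_biUnion.2 ⟨y, e1, mem_filter.2 ⟨e, e2⟩⟩
    refine ((Nat.cast_le (α := ℝ)).2 ((card_le_card b1).trans card_biUnion_le)).trans ?_
    rw [Nat.cast_sum]
    refine (sum_le_card_nsmul _ _ (1 + 2 * (1 / Q) / (κ / b)) fun y _ => few (by positivity)
      (by positivity) (fun k r e e' => ?_) _).trans (le_of_eq ?_)
    · obtain ⟨x1, x2, x3⟩ := a2 k e (by omega)
      obtain ⟨y1, y2, y3⟩ := a2 (k + r) (by omega) e'
      have z1 := h2 _ (by omega) e'
      have z2 := fi_le (a1 k e)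
      have z3 : fi F (c - F (k + r) + γ) ≤ fi F (c - F k + γ) :=
        fi_mono (by linarith [h.mono (Nat.le_add_right k r)]) (a1 k e)
      have z4 := h.smono (by omega) z3 z2
      have z5 := (h.grow k r (by omega) (by omega)).1
      have z6 : σ k / σ (fi F (c - F k + γ)) ≤ σ k / σ (fi F (c - F (k + r) + γ)) :=
        div_le_div_of_nonneg_left (by linarith) (by linarith) z4
      have z7 : κ / b * r ≤ (σ (k + r) - σ k) / σ (fi F (c - F (k + r) + γ)) := by
        rw [div_mul_eq_mul_div]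
        exact div_le_div₀ (by linarith [mul_nonneg hκ.le (Nat.cast_nonneg r : (0 : ℝ) ≤ r)]) z5
          (by linarith) (by linarith)
      rw [sub_div] at z7
      simp only [ρ]
      linarith
    · rw [card_product, card_range, nsmul_eq_mul]
      push_cast
      field_simp
  · obtain ⟨x1, x2, x3⟩ := a2 k e e'
    obtain ⟨f, f1, f2⟩ := Real.exists_rat_abs_sub_le_and_den_le (ρ k) hQ
    have hβ : 0 < σ (fi F (c - F k + γ)) := by linarith
    have hd : (0 : ℝ) < f.den := by exact_mod_cast f.den_pos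
    by_cases hf : f.den < q0
    · left
      have r0 : 0 ≤ ρ k := div_nonneg (by linarith) hβ.le
      have r1 : ρ k ≤ 1 := (div_le_one hβ).2 x2
      have r2 : 1 / ((Q + 1 : ℝ) * f.den) < 1 / f.den :=
        one_div_lt_one_div_of_lt hd (by nlinarith)
      have r3 : (f : ℝ) = f.num / f.den := Rat.cast_def f
      have r4 := abs_lt.1 (f1.trans_lt r2)
      have r5 : -1 < f.num := by
        have : (-1 : ℝ) / f.den < f.num / f.den := by rw [neg_div]; linarith [r4.2]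
        exact_mod_cast (div_lt_div_iff_of_pos_right hd).1 this
      have r6 : f.num < f.den + 1 := by
        have : (f.num : ℝ) / f.den < (f.den + 1) / f.den := by
          rw [add_div, div_self hd.ne']; linarith [r4.1]
        exact_mod_cast (div_lt_div_iff_of_pos_right hd).1 this
      refine ⟨(f.num.toNat, f.den), mem_product.2 ⟨mem_range.2 (by simp only; omega),
        mem_range.2 hf⟩, ?_⟩
      have r7 : ((f.num.toNat : ℕ) : ℝ) = f.num := by
        rw [← Int.cast_natCast, Int.toNat_of_nonneg (by omega)]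
      simp only [r7, ← r3]
      refine f1.trans (one_div_le_one_div_of_le hQ' ?_)
      have : (1 : ℝ) ≤ f.den := by exact_mod_cast f.den_pos
      nlinarith
    · refine Or.inr ⟨f.den, f.den_pos, f2, le_trans ?_ ((rot (η := (l - 8 * (Q + 4) ^ 2) /
        σ (fi F (c - F k + γ))) (x := (x + 4 * (Q + 4) ^ 2 -
        (c - F k - F (fi F (c - F k + γ)))) / σ (fi F (c - F k + γ))) f1 hQ ?_).trans (Nat.cast_le.2 (card_le_card fun r hr => ?_)))⟩
      · have r1 : (l - 8 * (Q + 4) ^ 2) / b ≤ (l - 8 * (Q + 4) ^ 2) / σ (fi F (c - F k + γ)) :=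
          div_le_div_of_nonneg_left hl hβ (by linarith)
        have r2 : (1 : ℝ) ≤ f.den * (1 / q0) := by
          rw [mul_one_div, one_le_div hq']; exact_mod_cast not_lt.1 hf
        nlinarith
      · rw [div_le_one hβ]; nlinarith [sq_nonneg ((Q : ℝ) + 4)]
      · obtain ⟨r1, j, r2, r3⟩ := mem_filter.1 hr
        exact mem_filter.2 ⟨r1, h.period (by omega) (a1 k e) (h2 k e e') h3 h4 h5
          ((mem_range.1 r1).le.trans f2) r2 r3⟩

end Pool.Agent.P.MP_e3a3b0_nt
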