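import Pool.Agent.P.MP_e3a3b0_nt.Win

/-! The lower tail of the number of coincidences. -/

namespace Pool.Agent.P.MP_e3a3b0_nt

open Finset

set_option linter.unusedSectionVars false

variable {ι : Type} [Fintype ι] [DecidableEq ι]

/-- the number of representations in the finite model -/
def rp (τ : ι → ℕ) (n : ℕ) (ω : ι → Bool) : ℕ :=
  ((range n ×ˢ range n).filter fun x => 1 < x.1 ∧ x.1 < x.2 ∧
    sm (cum τ n) ω = sm (cum τ x.1) ω + sm (cum τ x.2) ω).card

variable {p : ι → ℝ} {τ : ι → ℕ} {F σ : ℕ → ℝ} {lo n u : ℕ} {a b κ e : ℝ}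

theorem Par.tail (h : Par p τ F σ lo n a b κ e u) (h0 : 1 < lo) (h1 : b ≤ F lo) {W : ℕ}
    (h2 : lo + (W + 1) * (100 * u ^ 96) ≤ fi F (F n - F (lo + W * (100 * u ^ 96)))) (x : ℝ) :
    Pr p (fun ω => (rp τ n ω : ℝ) < x) ≤
      Real.exp (4 * x - (1 - Real.exp (-4)) * (94 * (u : ℝ) ^ 96 / b) * W) +
        W * (288 / (u : ℝ) ^ 120) := by
  classical
  have F0 : ∀ k, 0 ≤ F k := fun k => h.F0.trans (h.R.mono (Nat.zero_le k))
  have hu : (10 : ℝ) ^ 4 ≤ u := by exact_mod_cast h.big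
  have hu0 : (0 : ℝ) < u := by linarith
  have hu1 : 0 < u ^ 96 := pow_pos (by exact_mod_cast hu0) _
  let kw : ℕ → ℕ := fun w => lo + w * (100 * u ^ 96)
  let mw : ℕ → ℕ := fun w => fi F (F n - F (kw w))
  have k1 : ∀ w, kw (w + 1) = kw w + 100 * u ^ 96 := fun w => by simp only [kw]; ring
  have k2 : ∀ w w', w ≤ w' → kw w ≤ kw w' := fun w w' e =>
    Nat.add_le_add_left (Nat.mul_le_mul_right _ e) _
  have k3 : ∀ w, lo ≤ kw w := fun w => Nat.le_add_right _ _
  have m1 : ∀ w, mw w ≤ n := fun w => fi_le (sub_le_self (F n) (F0 _))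
  have m2 : ∀ w w', w ≤ w' → mw w' ≤ mw w := fun w w' e =>
    fi_mono (sub_le_sub_left (h.R.mono (k2 w w' e)) _) (sub_le_self (F n) (F0 _))
  have m3 : ∀ w < W, kw w + 200 * u ^ 96 ≤ mw (w + 1) := fun w hw => by
    have a1 := k2 (w + 1) (W) hw
    have a2 := m2 (w + 1) W hw
    have a3 : kw (W + 1) ≤ mw W := h2
    rw [k1] at a1 a3
    omega
  have hn : lo < n := by
    have a3 : kw (W + 1) ≤ mw W := h2
    have := m1 W
    have := k3 W
    rw [k1] at a3
    omega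
  have m4 : mw 0 < n := by
    obtain ⟨n', rfl⟩ : ∃ n', n = n' + 1 := ⟨n - 1, by omega⟩
    have a1 := (h.R.lin (k := n') (by omega) 1 le_rfl).2.2
    refine Nat.lt_succ_of_le (fi_le ?_)
    simp only [kw, zero_mul, add_zero]
    push_cast at a1
    linarith
  let z : ℕ → (ι → Bool) → ℤ := fun w ω => sm (seg τ (mw w) n) ω - sm (cum τ (kw w)) ω
  let Bad : ℕ → (ι → Bool) → Prop := fun w ω =>
    (u : ℝ) ^ 160 < |F (kw w) + F (mw w) + z w ω - F n|
  let Hit : ℕ → (ι → Bool) → Prop := fun w ω =>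
    ∃ k ∈ Ico (kw w + u ^ 96) (kw w + 99 * u ^ 96), ∃ m, mw (w + 1) ≤ m ∧ m ≤ mw w ∧
      sm (cum τ k) ω = sm (seg τ m n) ω
  have d1 : ∀ w k, k ≤ kw w → Dep {i | kw w < τ i ∧ τ i ≤ mw w}ᶜ (sm (cum τ k)) := fun w k e =>
    dep_cum fun i a b => (b.1.trans_le (a.trans e)).false
  have d2 : ∀ w m, mw w ≤ m → Dep {i | kw w < τ i ∧ τ i ≤ mw w}ᶜ (sm (seg τ m n)) := fun w m e =>
    dep_seg fun i a _ b => (a.trans_le (b.2.trans e)).false
  have d3 : ∀ w w', w' ≤ w → Dep {i | kw w < τ i ∧ τ i ≤ mw w}ᶜ (z w') := fun w w' e =>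
    (d2 w _ (m2 _ _ e)).two (d1 w _ (k2 _ _ e)) fun x y => x - y
  have hb : 5 * (u : ℝ) ^ 99 ≤ b := by
    linarith [h.R.low n hn.le le_rfl, h.R.up n hn.le le_rfl, h.ha]
  have hb0 : 0 < b := lt_of_lt_of_le (by positivity) hb
  have a1 := chain_tail h.M.pb (fun w => {i | kw w < τ i ∧ τ i ≤ mw w})
    (fun w ω => Hit w ω ∨ Bad w ω) (θ := 4) (q := 94 * (u : ℝ) ^ 96 / b) (x := x) (by norm_num) W
    (fun w hw w' hw' ω ω' H => ?_) fun w hw ω => ?_
  · have a2 : ∀ w ∈ range W, Pr p (Bad w) ≤ 288 / (u : ℝ) ^ 120 := fun w hw => by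
      have b1 := m3 w (mem_range.1 hw)
      have b2 := m2 w (w + 1) (by omega)
      have b3 := m1 w
      have b4 := pw h.big 67 160 (by norm_num)
      have b5 := pw h.big 67 200 (by norm_num)
      have b6 : (0 : ℝ) ≤ (u : ℝ) ^ 67 := pow_nonneg hu0.le _
      have b7 := conc h.M.pb (h.M.mean (k := mw w) (by have := k3 w; omega) b3 le_rfl)
        ((h.M.err (kw w) (k3 w) (by omega)).trans (by linarith [h.e0]))
        (V := 9 * (u : ℝ) ^ 200) (R := (u : ℝ) ^ 160 / 4) (by linarith [h.Fn, h.e1, F0 (mw w)])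
        (by linarith [h.Fn, h.e1, h.R.mono (show kw w ≤ n by omega)]) (div_pos (pow_pos hu0 _) four_pos)
      refine (Pr_mono h.M.pb fun ω H => ?_).trans (b7.trans (le_of_eq ?_))
      · refine lt_of_le_of_lt (by linarith [h.e1]) (H.trans_eq ?_)
        congr 1; simp only [z]; ring
      · field_simp; norm_num
    have a3 := (Pr_exists_le h.M.pb (range W) Bad).trans (sum_le_card_nsmul _ _ _ a2)
    rw [card_range, nsmul_eq_mul] at a3
    refine le_trans ((Pr_mono h.M.pb fun ω H => ?_).trans (Pr_or_le h.M.pb _ _)) (add_le_add a1 a3)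
    rw [or_iff_not_imp_right]
    refine fun hB => lt_of_le_of_lt (Nat.cast_le.2 ?_) H
    refine le_trans (card_le_card fun w hw => ?_)
      (card_image_le (f := fun y : ℕ × ℕ => (y.1 - lo) / (100 * u ^ 96)))
    obtain ⟨b1, b2⟩ := (@mem_filter _ _ (_) _ _).1 hw
    obtain ⟨k, c1, m, c2, c3, c4⟩ := b2.resolve_right fun e => hB ⟨w, b1, e⟩
    rw [mem_Ico] at c1
    have c5 := m3 w (mem_range.1 b1)
    have c6 := m2 0 w (Nat.zero_le w)
    have c7 := k3 w
    refine mem_image.2 ⟨(k, m), mem_filter.2 ⟨mem_product.2 ⟨mem_range.2 (by simp only; omega),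
      mem_range.2 (by simp only; omega)⟩, by simp only; omega, by simp only; omega, ?_⟩, ?_⟩
    · rw [sm_cum (τ := τ) ω (show m ≤ n by omega), c4, add_comm]
    · simp only [kw] at c1
      refine Nat.div_eq_of_lt_le (by omega) ?_
      rw [Nat.succ_mul]
      omega
  · have e1 : Bad w' ω = Bad w' ω' := by simp only [Bad, d3 w w' hw'.le ω ω' H]
    have e2 : Hit w' ω ↔ Hit w' ω' := by
      refine exists_congr fun k => and_congr_right fun hk => exists_congr fun m =>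
        and_congr_right fun hm => and_congr_right fun _ => ?_
      have b1 := k2 _ _ (Nat.succ_le_of_lt hw')
      rw [k1] at b1
      rw [d1 w k (by have := (mem_Ico.1 hk).2; omega) ω ω' H,
        d2 w m ((m2 _ _ hw').trans hm) ω ω' H]
    simp only [e1, e2]
  · by_cases hB : Bad w ω
    · refine le_trans ?_ (le_Ex h.M.pb fun ω' => (ind_pos (Or.inr ?_)).ge)
      · rw [div_le_one hb0]
        linarith [pw h.big 96 99 (by norm_num), pow_nonneg hu0.le 96]
      · simpa only [Bad, (d3 w w le_rfl).spl_out] using hB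
    · have b1 := m3 w hw
      refine (h.win (k3 w) (k1 w ▸ b1) (not_lt.1 hB)).trans (Pr_mono h.M.pb fun ω' H => Or.inl ?_)
      obtain ⟨k, c1, m, c2, c3, c4⟩ := H
      rw [← k1] at c2
      refine ⟨k, c1, m, c2, c3, ?_⟩
      rw [mem_Ico] at c1
      have c2' : mw (w + 1) ≤ m := c2
      have c3' : m ≤ mw w := c3
      rw [sm_cum _ (show kw w ≤ k by omega), sm_seg _ c3' (m1 w), (d1 w _ le_rfl).spl_out,
        (d2 w _ le_rfl).spl_out, 
        (dep_seg (s := {i | kw w < τ i ∧ τ i ≤ mw w}) fun i a b => ⟨a, by omega⟩).spl_in,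
        (dep_seg (s := {i | kw w < τ i ∧ τ i ≤ mw w}) fun i a b => ⟨by omega, b⟩).spl_in]
      simp only [zz, z] at c4
      change _ - sm (seg τ m (mw w)) ω' = _ at c4
      omega

end Pool.Agent.P.MP_e3a3b0_nt
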