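import Pool.Agent.P.MP_e3a3b0_nt.Blk
import Pool.Agent.P.MP_e3a3b0_nt.Rot

/-! The probability of a coincidence inside one window. -/

namespace Pool.Agent.P.MP_e3a3b0_nt

open Finset

set_option linter.unusedSectionVars false

variable {ι : Type} [Fintype ι] [DecidableEq ι]

/-- the sizes of all parameters, as powers of `u` -/
structure Par (p : ι → ℝ) (τ : ι → ℕ) (F σ : ℕ → ℝ) (lo n : ℕ) (a b κ e : ℝ) (u : ℕ) : Prop where
  M : Mod p τ F lo n e
  R : Reg F σ lo n a b κ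
  big : 10 ^ 4 ≤ u
  ha : 5 * (u : ℝ) ^ 99 ≤ a
  hb : b ≤ (u : ℝ) ^ 100
  hk : b ≤ 8 * κ * (u : ℝ) ^ 100
  e0 : 0 ≤ e
  e1 : e ≤ 2 * (u : ℝ) ^ 67
  F0 : 0 ≤ F 0
  Fn : F n ≤ 8 * (u : ℝ) ^ 200

variable {p : ι → ℝ} {τ : ι → ℕ} {F σ : ℕ → ℝ} {lo n u : ℕ} {a b κ e : ℝ}

theorem pw {u : ℕ} (h : 10 ^ 4 ≤ u) (i j : ℕ) (e : i < j) :
    10 ^ 4 * (u : ℝ) ^ i ≤ (u : ℝ) ^ j := by
  have h1 : (10 : ℝ) ^ 4 ≤ u := by exact_mod_cast h
  have h2 : (1 : ℝ) ≤ u := by linarith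
  calc 10 ^ 4 * (u : ℝ) ^ i ≤ u * u ^ i := by gcongr
    _ = u ^ (i + 1) := by ring
    _ ≤ _ := pow_le_pow_right₀ h2 e

theorem Reg.fi_up (h : Reg F σ lo n a b κ) {x : ℝ} (h1 : x ≤ F n) (h2 : lo < fi F x) :
    F (fi F x) ≤ x + b := by
  have a1 := fi_le h1
  obtain ⟨m, hm⟩ : ∃ m, fi F x = m + 1 := ⟨fi F x - 1, by omega⟩
  have a2 := lt_fi (F := F) (x := x) (m := m) (by omega)
  have a3 := (h.lin (k := m) (by omega) 1 (by omega)).2.2
  rw [hm]
  push_cast at a3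
  linarith

theorem Par.geo (h : Par p τ F σ lo n a b κ e u) {kw : ℕ} (h1 : lo ≤ kw)
    (h2 : kw + 200 * u ^ 96 ≤ fi F (F n - F (kw + 100 * u ^ 96))) {c : ℝ}
    (h3 : |c - F n| ≤ (u : ℝ) ^ 160) {k : ℕ} (h4 : kw + u ^ 96 ≤ k) (h5 : k ≤ kw + 99 * u ^ 96)
    {δ : ℝ} (h6 : |δ| ≤ 2 * (u : ℝ) ^ 99) :
    5 * (u : ℝ) ^ 195 ≤ F k - F kw ∧ c - F k + δ ≤ F n ∧
      fi F (F n - F (kw + 100 * u ^ 96)) ≤ fi F (c - F k + δ) ∧
      fi F (c - F k + δ) ≤ fi F (F n - F kw) := by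
  have F0 : ∀ k, 0 ≤ F k := fun k => h.F0.trans (h.R.mono (Nat.zero_le k))
  have a1 := h2.trans (fi_le (sub_le_self (F n) (F0 _)))
  have a2 := (h.R.lin h1 (u ^ 96) (by omega)).2.1
  have a3 := (h.R.lin (k := k) (by omega) (u ^ 96) (by omega)).2.1
  have a4 := h.R.mono h4
  have a5 := h.R.mono (show k + u ^ 96 ≤ kw + 100 * u ^ 96 by omega)
  have a6 : 5 * (u : ℝ) ^ 195 ≤ (u ^ 96 : ℕ) * a := by
    refine le_trans (le_of_eq ?_) (mul_le_mul_of_nonneg_left h.ha (Nat.cast_nonneg _))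
    push_cast; ring
  have a7 := pw h.big 160 195 (by norm_num)
  have a8 := pw h.big 99 160 (by norm_num)
  have a9 : (0 : ℝ) ≤ (u : ℝ) ^ 99 := pow_nonneg (Nat.cast_nonneg u) _
  rw [abs_le] at h3 h6
  have b1 : c - F k + δ ≤ F n - F kw := by linarith [h3.2, h6.2]
  have b2 := sub_le_self (F n) (F0 kw)
  exact ⟨by linarith, b1.trans b2, fi_mono (by linarith [h3.1, h6.1]) (b1.trans b2),
    fi_mono b1 b2⟩

theorem Par.blk (h : Par p τ F σ lo n a b κ e u) {kw : ℕ} (h1 : lo ≤ kw)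
    (h2 : kw + 200 * u ^ 96 ≤ fi F (F n - F (kw + 100 * u ^ 96))) {z : ℤ}
    (h3 : |F kw + F (fi F (F n - F kw)) + z - F n| ≤ (u : ℝ) ^ 160) {k1 : ℕ}
    (h4 : kw + u ^ 96 ≤ k1) (h5 : k1 + u ^ 86 ≤ kw + 99 * u ^ 96) :
    0.97 * (u : ℝ) ^ 86 / b ≤ ∑ k ∈ Ico k1 (k1 + u ^ 86), Pr p fun ω =>
      zz τ kw (fi F (F n - F kw)) k
        (fi F (F kw + F (fi F (F n - F kw)) + z - F k + -(2 * (u : ℝ) ^ 99))) ω = z := by
  classical
  have F0 : ∀ k, 0 ≤ F k := fun k => h.F0.trans (h.R.mono (Nat.zero_le k))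
  have hu : (10 : ℝ) ^ 4 ≤ u := by exact_mod_cast h.big
  have hu0 : (0 : ℝ) < u := by linarith
  have hu1 : 1 ≤ u := le_trans (by norm_num) h.big
  have hκ := h.R.pos
  set mw := fi F (F n - F kw) with hmw
  set c := F kw + F mw + z with hc
  have m1 : mw ≤ n := fi_le (sub_le_self (F n) (F0 _))
  have hγ : |2 * (u : ℝ) ^ 99| ≤ 2 * (u : ℝ) ^ 99 := (abs_of_pos (by positivity)).le
  have G := fun k a b => h.geo h1 h2 h3 (k := k) a b ((abs_neg _).trans_le hγ)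
  have G' := fun k a b => h.geo h1 h2 h3 (k := k) a b hγ
  obtain ⟨g1, g2, g3, g4⟩ := G k1 h4 (by omega)
  have hb : 0 < b := by linarith [h.R.low n (by omega) le_rfl, h.R.up n (by omega) le_rfl, h.R.one]
  have b1 := h.hb
  have b2 : ∀ k r, lo ≤ k → k + r ≤ n → F (k + r) - F k ≤ r * (u : ℝ) ^ 100 := fun k r x y =>
    (h.R.lin x r y).2.2.trans (mul_le_mul_of_nonneg_left b1 (Nat.cast_nonneg r))
  have b3 := b2 kw (100 * u ^ 96) h1 (by omega)
  have b4 := b2 k1 (u ^ 86) (by omega) (by omega)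
  have p0 : (0 : ℝ) < (u : ℝ) ^ 40 := by positivity
  have p1 := pw h.big 40 67 (by norm_num)
  have p2 := pw h.big 67 74 (by norm_num)
  have p3 := pw h.big 74 80 (by norm_num)
  have p4 := pw h.big 80 86 (by norm_num)
  have p5 := pw h.big 86 94 (by norm_num)
  have p6 := pw h.big 94 99 (by norm_num)
  have p7 := pw h.big 99 100 (by norm_num)
  have p8 := pw h.big 100 186 (by norm_num)
  have p9 := pw h.big 186 195 (by norm_num)
  have p10 := pw h.big 195 196 (by norm_num)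
  have p11 := pw h.big 0 40 (by norm_num)
  have e1 := h.e1
  have e0 := h.e0
  have q1 : u ^ 40 + 4 ≤ u ^ 96 := by
    have : (u : ℝ) ^ 40 + 4 ≤ (u : ℝ) ^ 96 := by linarith [pw h.big 40 96 (by norm_num)]
    exact_mod_cast this
  push_cast at b3 b4
  have key := h.M.block (kw := kw) (mw := mw) (k1 := k1) (s := u ^ 86) (l := u ^ 94)
    (g := fun k => fi F (c - F k + -(2 * (u : ℝ) ^ 99))) (z := z) (K := (u : ℝ) ^ 99)
    (R0 := (u : ℝ) ^ 99 / 4) (R := (u : ℝ) ^ 94) (V0 := 200 * (u : ℝ) ^ 196)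
    (V := 3 * (u : ℝ) ^ 186) (v0 := 4 * (u : ℝ) ^ 195)
    (n0 := 0.99 * (u : ℝ) ^ 94 / b * (0.99 * (u : ℝ) ^ 86)) h1 (by omega)
    (fun k hk => ?_) (by omega) g4 m1 (by positivity) (by linarith)
    (by linarith [h.R.mono (show k1 ≤ kw + 100 * u ^ 96 by omega)]) ?_ (by positivity)
    (by positivity) (by linarith) e0 ?_ (by positivity) fun x hx => ?_
  · have c1 : 2 * (3 * (u : ℝ) ^ 186) / ((u : ℝ) ^ 94) ^ 2 ≤ 0.001 := by
      rw [div_le_iff₀ (by positivity)]; linarith [pw h.big 186 188 (by norm_num)]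
    have c2 : 2 * (200 * (u : ℝ) ^ 196) / ((u : ℝ) ^ 99 / 4) ^ 2 ≤ 0.001 := by
      rw [div_le_iff₀ (by positivity)]; linarith [pw h.big 196 197 (by norm_num), pw h.big 197 198 (by norm_num)]
    have c3 : (2 * (u : ℝ) ^ 99 + 1) * (4 / (4 * (u : ℝ) ^ 195) *
        (2 * (u : ℝ) ^ 94 + 4 * e + (u ^ 94 : ℕ))) ≤ 0.002 := by
      calc _ ≤ 3 * (u : ℝ) ^ 99 * (4 / (4 * (u : ℝ) ^ 195) * (4 * (u : ℝ) ^ 94)) := by
            push_cast
            gcongr <;> linarith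
        _ = 12 * (u : ℝ) ^ 193 / (u : ℝ) ^ 195 := by field_simp; norm_num
        _ ≤ _ := by rw [div_le_iff₀ (by positivity)]; linarith [pw h.big 193 195 (by norm_num)]
    refine le_of_mul_le_mul_left (le_trans ?_ key) (by positivity)
    calc ((u ^ 94 : ℕ) : ℝ) * (0.97 * (u : ℝ) ^ 86 / b)
        ≤ 0.99 * (u : ℝ) ^ 94 / b * (0.99 * (u : ℝ) ^ 86) * 0.999 * 0.997 := by
          have : (0 : ℝ) ≤ (u : ℝ) ^ 94 * (u : ℝ) ^ 86 / b := by positivity
          push_cast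
          ring_nf at this ⊢
          linarith
      _ ≤ _ := by
          have c4 : (0 : ℝ) ≤ 0.99 * (u : ℝ) ^ 94 / b * (0.99 * (u : ℝ) ^ 86) := by positivity
          exact mul_le_mul (mul_le_mul_of_nonneg_left (by linarith) c4) (by linarith) (by norm_num)
            (mul_nonneg c4 (by linarith))
  · rw [mem_Ico] at hk
    obtain ⟨x1, x2, x3, x4⟩ := G k (by omega) (by omega)
    have y1 := h.R.mono hk.1
    have y2 := h.R.mono hk.2.le
    refine ⟨by omega, fi_mono (by linarith) g2, by linarith, ?_⟩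
    linarith [h.R.fi_up g2 (by omega), le_fi x2]
  · have y1 := h.R.fi_up (sub_le_self (F n) (F0 kw)) (by omega)
    have y2 := le_fi (sub_le_self (F n) (F0 (kw + 100 * u ^ 96)))
    linarith [h.R.mono g3]
  · rw [div_le_one (by positivity)]; linarith [pw h.big 186 188 (by norm_num)]
  · rw [abs_le] at hx
    have y1 := h.R.count (c := c) (γ := 2 * (u : ℝ) ^ 99) (x := x) (l := (u ^ 94 : ℕ))
      (η := 0.99 * (u : ℝ) ^ 94 / b) (k1 := k1) (s := u ^ 86) (Q := u ^ 40) (q0 := u ^ 7)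
      (by omega) (G' k1 h4 (by omega)).2.1
      (fun k x1 x2 => by have := (G' k (by omega) (by omega)).2.2.1; omega)
      (by linarith [hx.1]) (by push_cast; linarith [hx.2]) (by linarith [h.ha]) (by positivity)
      (by positivity) (by positivity) (by positivity) (by
        have z1 : 2 / ((u : ℝ) ^ 40) ≤ 0.003 * (u : ℝ) ^ 94 / b := by
          rw [div_le_div_iff₀ p0 hb]; linarith [pw h.big 100 134 (by norm_num)]
        have z2 : 1 / ((u : ℝ) ^ 7) ≤ 0.003 * (u : ℝ) ^ 94 / b := by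
          rw [div_le_div_iff₀ (by positivity) hb]; linarith [pw h.big 100 101 (by norm_num)]
        have z3 : 0.996 * (u : ℝ) ^ 94 / b ≤
            ((u : ℝ) ^ 94 - 8 * ((u : ℝ) ^ 40 + 4) ^ 2) / b := by
          gcongr; linarith
        push_cast
        ring_nf at z1 z2 z3 ⊢
        linarith)
    refine le_trans (mul_le_mul_of_nonneg_left ?_ (by positivity)) (y1.trans (Nat.cast_le.2
      (card_le_card fun k hk => ?_)))
    · have z1 : 2 * b / (κ * (u : ℝ) ^ 40) ≤ 16 * (u : ℝ) ^ 60 := by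
        rw [div_le_iff₀ (by positivity)]; linarith [h.hk]
      have z2 := mul_le_mul_of_nonneg_left (add_le_add_right z1 1)
        (show 0 ≤ ((u : ℝ) ^ 7) ^ 2 by positivity)
      push_cast
      linarith [pw h.big 14 74 (by norm_num)]
    · obtain ⟨x0, m, x5, x6⟩ := mem_filter.1 hk
      refine mem_filter.2 ⟨x0, ?_⟩
      rw [mem_Ico] at x0
      obtain ⟨x1, x2, x3, x4⟩ := G k (by omega) (by omega)
      push_cast at x6 ⊢
      have z1 : fi F (c - F k + -(2 * (u : ℝ) ^ 99)) = m := by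
        refine le_antisymm (fi_le (by linarith [hx.2])) (not_lt.1 fun z2 => ?_)
        have z3 := h.R.mono (Nat.succ_le_of_lt z2)
        have z4 := (abs_le.1 (h.R.step _ (by omega) (x4.trans m1))).1
        have z5 := h.R.low _ (by omega) (x4.trans m1)
        linarith [le_fi x2, h.ha, hx.1]
      rw [z1]
      exact ⟨x5, x6⟩

theorem Par.win (h : Par p τ F σ lo n a b κ e u) {kw : ℕ} (h1 : lo ≤ kw)
    (h2 : kw + 200 * u ^ 96 ≤ fi F (F n - F (kw + 100 * u ^ 96))) {z : ℤ}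
    (h3 : |F kw + F (fi F (F n - F kw)) + z - F n| ≤ (u : ℝ) ^ 160) :
    94 * (u : ℝ) ^ 96 / b ≤ Pr p fun ω => ∃ k ∈ Ico (kw + u ^ 96) (kw + 99 * u ^ 96), ∃ m,
      fi F (F n - F (kw + 100 * u ^ 96)) ≤ m ∧ m ≤ fi F (F n - F kw) ∧
        zz τ kw (fi F (F n - F kw)) k m ω = z := by
  have F0 : ∀ k, 0 ≤ F k := fun k => h.F0.trans (h.R.mono (Nat.zero_le k))
  have hu : (10 : ℝ) ^ 4 ≤ u := by exact_mod_cast h.big
  have hu0 : (0 : ℝ) < u := by linarith
  have m1 : fi F (F n - F kw) ≤ n := fi_le (sub_le_self (F n) (F0 _))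
  have hγ : |2 * (u : ℝ) ^ 99| ≤ 2 * (u : ℝ) ^ 99 := (abs_of_pos (by positivity)).le
  have G := fun k a b => h.geo h1 h2 h3 (k := k) a b ((abs_neg _).trans_le hγ)
  have m2 := h2.trans (fi_le (sub_le_self (F n) (F0 _)))
  have hb : 0 < b := by linarith [h.R.low n (by omega) le_rfl, h.R.up n (by omega) le_rfl, h.R.one]
  have a0 : u ^ 10 * u ^ 86 = u ^ 96 := by ring
  have a1 := sum_blocks (k0 := kw + u ^ 96) (s := u ^ 86) (98 * u ^ 10) fun j hj =>
    h.blk h1 h2 h3 (k1 := kw + u ^ 96 + j * u ^ 86) (by omega) (by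
      have := Nat.mul_le_mul_right (u ^ 86) (Nat.succ_le_of_lt hj)
      rw [Nat.succ_mul, mul_assoc, a0] at this
      omega)
  rw [mul_assoc, a0, show kw + u ^ 96 + 98 * u ^ 96 = kw + 99 * u ^ 96 by ring] at a1
  have a2 := bonf h.M.pb (Ico (kw + u ^ 96) (kw + 99 * u ^ 96)) (ε := 0.01)
    (fun k ω => zz τ kw (fi F (F n - F kw)) k
      (fi F (F kw + F (fi F (F n - F kw)) + z - F k + -(2 * (u : ℝ) ^ 99))) ω = z) fun k hk => ?_
  · refine le_trans ?_ ((mul_le_mul_of_nonneg_left a1 (by norm_num)).trans (a2.trans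
      (Pr_mono h.M.pb fun ω H => ?_)))
    · have : (0 : ℝ) ≤ (u : ℝ) ^ 96 / b := by positivity
      push_cast
      ring_nf at this ⊢
      linarith
    · obtain ⟨k, hk, H⟩ := H
      obtain ⟨-, -, x3, x4⟩ := G k (mem_Ico.1 hk).1 (mem_Ico.1 hk).2.le
      exact ⟨k, hk, _, x3, x4, H⟩
  · rw [mem_Ico] at hk
    obtain ⟨x1, x2, x3, x4⟩ := G k hk.1 hk.2.le
    have b0 := Pr_nonneg h.M.pb fun ω => zz τ kw (fi F (F n - F kw)) k
      (fi F (F kw + F (fi F (F n - F kw)) + z - F k + -(2 * (u : ℝ) ^ 99))) ω = z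
    refine (sum_le_sum (g := fun k' => 1 / (√(((k' - (k + 1) : ℕ) : ℝ) + 1) * (100 * (u : ℝ) ^ 49)) *
      Pr p fun ω => zz τ kw (fi F (F n - F kw)) k
        (fi F (F kw + F (fi F (F n - F kw)) + z - F k + -(2 * (u : ℝ) ^ 99))) ω = z)
      fun k' hk' => ?_).trans ?_
    · rw [mem_filter, mem_Ico] at hk'
      obtain ⟨y1, y2, y3, y4⟩ := G k' hk'.1.1 hk'.1.2.le
      obtain ⟨r, rfl⟩ := Nat.exists_eq_add_of_lt hk'.2
      have c1 := (h.R.lin (k := k) (by omega) (r + 1) (by omega)).2.1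
      have c2 := h.M.pair h1 (by omega) hk'.2.le (le_trans (by omega) y3)
        (fi_mono (by linarith [h.R.mono hk'.2.le]) x2) x4 m1
        (v := ((r : ℝ) + 1) * (100 * (u : ℝ) ^ 49) ^ 2) (by positivity) (by
          have d1 := mul_le_mul_of_nonneg_left h.ha (show (0 : ℝ) ≤ r + 1 by positivity)
          have d2 := mul_le_mul_of_nonneg_left (pw h.big 98 99 (by norm_num)) (show (0 : ℝ) ≤ r + 1 by positivity)
          have d3 : (0 : ℝ) ≤ r * (u : ℝ) ^ 99 := by positivity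
          have d4 : (0 : ℝ) ≤ (u : ℝ) ^ 67 := by positivity
          rw [← add_assoc] at c1
          push_cast at c1
          linarith [h.e1, pw h.big 67 99 (by norm_num)]) z
      rwa [Real.sqrt_mul (by positivity), Real.sqrt_sq (by positivity),
        show (r : ℝ) = (k + r + 1 - (k + 1) : ℕ) by congr 1; omega] at c2
    · rw [← sum_mul]
      refine mul_le_mul_of_nonneg_right ((sum_le_sum_of_subset_of_nonneg
        (t := Ico (k + 1) (k + 1 + 100 * u ^ 96)) (fun k' hk' => ?_)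
        fun _ _ _ => by positivity).trans ?_) b0
      · rw [mem_filter, mem_Ico] at hk'
        exact mem_Ico.2 ⟨by omega, by omega⟩
      · simp only [sum_Ico_eq_sum_range, Nat.add_sub_cancel_left, ← div_div, ← sum_div]
        rw [div_le_iff₀ (by positivity), div_le_iff₀ (by positivity)]
        refine (sum_inv_sqrt _).trans ?_
        rw [show ((100 * u ^ 96 : ℕ) : ℝ) = (10 * (u : ℝ) ^ 48) ^ 2 by push_cast; ring,
          Real.sqrt_sq (by positivity)]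
        linarith [pw h.big 48 49 (by norm_num), show (0 : ℝ) ≤ (u : ℝ) ^ 48 by positivity]

end Pool.Agent.P.MP_e3a3b0_nt
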